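import Pool.Agent.H86.QC.M

set_option autoImplicit false

/-!
# Parameters
-/

namespace Pool.Agent.H86.QC

open Finset Filter Topology
open Pool.Agent.Q122.FM (kron IsFund LHalf kr2)
open Pool.Agent.H306R2.RZ (gm)
open Pool.Agent.Q255.TQ (Tu)

noncomputable section

theorem off_mono {S : Finset ℤ} {F G : ℤ → ℤ → ℝ} (h : ∀ D ∈ S, ∀ E ∈ S, D ≠ E → F D E ≤ G D E) :
    Off S F ≤ Off S G := by
  unfold Off
  refine sum_le_sum fun D hD => sum_le_sum fun E hE => ?_
  obtain ⟨h1, h2⟩ := mem_erase.1 hE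
  exact h D hD E h2 (Ne.symm h1)

theorem off_nonneg {S : Finset ℤ} {F : ℤ → ℤ → ℝ} (h : ∀ D ∈ S, ∀ E ∈ S, 0 ≤ F D E) : 0 ≤ Off S F := by
  unfold Off
  exact sum_nonneg fun D hD => sum_nonneg fun E hE => h D hD E (mem_of_mem_erase hE)

theorem off_subset {S T : Finset ℤ} (hTS : T ⊆ S) {F : ℤ → ℤ → ℝ} (h : ∀ D E, 0 ≤ F D E) :
    Off T F ≤ Off S F := by
  unfold Off
  refine (sum_le_sum fun D _ => sum_le_sum_of_subset_of_nonneg (erase_subset_erase D hTS)
    fun E _ _ => h D E).trans ?_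
  exact sum_le_sum_of_subset_of_nonneg hTS fun D _ _ => sum_nonneg fun E _ => h D E

theorem off_lin (S : Finset ℤ) (F G : ℤ → ℤ → ℝ) (a b : ℝ) :
    Off S (fun D E => a * F D E + b * G D E) = a * Off S F + b * Off S G := by
  unfold Off
  rw [mul_sum, mul_sum, ← sum_add_distrib]
  refine sum_congr rfl fun D _ => ?_
  rw [sum_add_distrib, mul_sum, mul_sum]

theorem off_card (S : Finset ℤ) (a : ℝ) (ha : 0 ≤ a) : Off S (fun _ _ => a) ≤ (S.card : ℝ) ^ 2 * a := by
  unfold Off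
  calc ∑ D ∈ S, ∑ _E ∈ S.erase D, a ≤ ∑ _D ∈ S, ∑ _E ∈ S, a :=
        sum_le_sum fun D _ => sum_le_sum_of_subset_of_nonneg (erase_subset _ _) fun _ _ _ => ha
    _ = _ := by
      rw [sum_const, sum_const, nsmul_eq_mul, nsmul_eq_mul]
      ring

/-- the elementary inequality -/
theorem young {L A τ : ℝ} (hL : 0 ≤ L) (hA : 0 ≤ A) (hτ : 0 < τ) (i : ℕ) :
    L * A ^ i ≤ τ * A ^ (i + 1) + (τ ^ i)⁻¹ * L ^ (i + 1) := by
  rcases le_or_gt L (τ * A) with h | h
  · have h1 : L * A ^ i ≤ τ * A ^ (i + 1) := by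
      calc L * A ^ i ≤ (τ * A) * A ^ i := mul_le_mul_of_nonneg_right h (pow_nonneg hA i)
        _ = _ := by ring
    have h2 : 0 ≤ (τ ^ i)⁻¹ * L ^ (i + 1) := by positivity
    linarith
  · have h1 : A ^ i ≤ (τ ^ i)⁻¹ * L ^ i := by
      rw [inv_mul_eq_div, le_div_iff₀ (by positivity), mul_comm, ← mul_pow]
      exact pow_le_pow_left₀ (by positivity) h.le i
    have h2 : L * A ^ i ≤ L * ((τ ^ i)⁻¹ * L ^ i) := mul_le_mul_of_nonneg_left h1 hL
    have h3 : L * ((τ ^ i)⁻¹ * L ^ i) = (τ ^ i)⁻¹ * L ^ (i + 1) := by ring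
    have h4 : 0 ≤ τ * A ^ (i + 1) := by positivity
    linarith

/-- the moments off the diagonal -/
theorem off_UU {S : Finset ℤ} {X R : ℝ} (hA : Adm S X R) (K k : ℕ) :
    Off S (fun D E => kap (av D) (av E) * BB K D E ^ (2 * k)) ≤ UU S K (2 * k) := by
  unfold UU
  rw [off_add]
  have : 0 ≤ ∑ D ∈ S, kap (av D) (av D) * BB K D D ^ (2 * k) := sum_nonneg fun D hD => by
    have ha := av_pos (adm_ne hA D hD)
    exact mul_nonneg (kap_pos ha ha).le ((even_two_mul k).pow_nonneg _)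
  linarith

/-- the conclusion, if the diagonal is small -/
theorem core {S : Finset ℤ} {X R : ℝ} (hX : 0 < X) (hR : 1 ≤ R) (hA : Adm S X R) {K i : ℕ}
    (hK : ((K * K : ℕ) : ℝ) ≤ X)
    (hdiag : S.card * ((4 * K) ^ i * (4 * I0 * (R * Real.sqrt X))) ≤ J0 / 4 * UU S K (2 * (i + 1))) :
    (3 * J0 / (4 * gm (1 / 2))) * UU S K (2 * (i + 1)) ≤ Off S (fun D E => kap (av D) (av E) *
      BB K D E ^ (2 * i) * LHalf (D * E)) ∧
    (J0 / 2 * (J0 / (4 * gm (1 / 2))) ^ i / gm (1 / 2)) * UU S K (2 * (i + 1)) ≤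
      Off S (fun D E => |LHalf (D * E)| ^ (i + 1)) := by
  have hg := gm_pos
  have hJ := J0_pos
  have h := main2 hX hR hA (i := i) hK
  generalize gm (1 / 2) = g at hg h
  set U := UU S K (2 * (i + 1)) with hU
  have h1 : 3 * J0 / 4 * U ≤ g * Off S (fun D E => kap (av D) (av E) *
      BB K D E ^ (2 * i) * LHalf (D * E)) := by linarith
  constructor
  · have e : 3 * J0 / (4 * g) * U = (3 * J0 / 4 * U) / g := by
      field_simp
    rw [e, div_le_iff₀ hg]
    linarith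
  · set τ : ℝ := J0 / (4 * g) with hτ
    have hτ0 : 0 < τ := by positivity
    have h2 : Off S (fun D E => kap (av D) (av E) * BB K D E ^ (2 * i) * LHalf (D * E)) ≤
        Off S (fun D E => τ * (kap (av D) (av E) * BB K D E ^ (2 * (i + 1))) +
          (τ ^ i)⁻¹ * |LHalf (D * E)| ^ (i + 1)) := by
      refine off_mono fun D hD E hE _ => ?_
      have ha := av_pos (adm_ne hA D hD)
      have hb := av_pos (adm_ne hA E hE)
      have hk0 := (kap_pos ha hb).le
      have hk1 := kap_le ha hb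
      have h3 := young (abs_nonneg (LHalf (D * E))) (sq_nonneg (BB K D E)) hτ0 i
      rw [← pow_mul, ← pow_mul] at h3
      have h4 : 0 ≤ BB K D E ^ (2 * i) := (even_two_mul i).pow_nonneg _
      have h5 : 0 ≤ (τ ^ i)⁻¹ * |LHalf (D * E)| ^ (i + 1) := by positivity
      calc kap (av D) (av E) * BB K D E ^ (2 * i) * LHalf (D * E) ≤
          kap (av D) (av E) * BB K D E ^ (2 * i) * |LHalf (D * E)| :=
            mul_le_mul_of_nonneg_left (le_abs_self _) (mul_nonneg hk0 h4)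
        _ = kap (av D) (av E) * (|LHalf (D * E)| * BB K D E ^ (2 * i)) := by ring
        _ ≤ kap (av D) (av E) * (τ * BB K D E ^ (2 * (i + 1)) +
            (τ ^ i)⁻¹ * |LHalf (D * E)| ^ (i + 1)) := mul_le_mul_of_nonneg_left h3 hk0
        _ = τ * (kap (av D) (av E) * BB K D E ^ (2 * (i + 1))) +
            kap (av D) (av E) * ((τ ^ i)⁻¹ * |LHalf (D * E)| ^ (i + 1)) := by ring
        _ ≤ _ := by
            have := mul_le_mul_of_nonneg_right hk1 h5
            linarith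
    rw [off_lin] at h2
    have h3 := off_UU hA K (i + 1)
    have h4 : g * (τ * Off S (fun D E => kap (av D) (av E) * BB K D E ^ (2 * (i + 1)))) ≤ J0 / 4 * U := by
      have e : g * τ = J0 / 4 := by
        rw [hτ]
        field_simp
      rw [← mul_assoc, e]
      exact mul_le_mul_of_nonneg_left h3 (by positivity)
    have h5 : 3 * J0 / 4 * U ≤ J0 / 4 * U + g * ((τ ^ i)⁻¹ * Off S (fun D E => |LHalf (D * E)| ^ (i + 1))) := by
      calc 3 * J0 / 4 * U ≤ g * Off S (fun D E => kap (av D) (av E) *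
              BB K D E ^ (2 * i) * LHalf (D * E)) := h1
        _ ≤ g * (τ * Off S (fun D E => kap (av D) (av E) * BB K D E ^ (2 * (i + 1))) +
            (τ ^ i)⁻¹ * Off S (fun D E => |LHalf (D * E)| ^ (i + 1))) := mul_le_mul_of_nonneg_left h2 hg.le
        _ ≤ _ := by
            rw [mul_add]
            linarith
    have h6 : J0 / 2 * U ≤ g * (τ ^ i)⁻¹ * Off S (fun D E => |LHalf (D * E)| ^ (i + 1)) := by
      rw [mul_assoc]
      linarith
    have hτi : 0 < τ ^ i := by positivity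
    calc J0 / 2 * τ ^ i / g * U = (J0 / 2 * U) * (τ ^ i / g) := by ring
      _ ≤ (g * (τ ^ i)⁻¹ * Off S (fun D E => |LHalf (D * E)| ^ (i + 1))) * (τ ^ i / g) :=
          mul_le_mul_of_nonneg_right h6 (by positivity)
      _ = Off S (fun D E => |LHalf (D * E)| ^ (i + 1)) := by
          field_simp

/-- **Moments for admissible sets** -/
theorem moments (i : ℕ) {δ R : ℝ} (hδ : 0 < δ) (hR : 1 ≤ R) : ∃ c : ℝ, 0 < c ∧ ∃ X₀ : ℝ, 1 ≤ X₀ ∧
    ∀ X : ℝ, X₀ ≤ X → ∀ S : Finset ℤ, Adm S X R → X ^ (1 / 2 + δ) ≤ S.card →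
      c * (S.card : ℝ) ^ 2 * Real.log X ^ ((i + 1) * (i + 2) / 2) ≤
        Off S (fun D E => |LHalf (D * E)| ^ (i + 1)) ∧
      (i = 0 → c * (S.card : ℝ) ^ 2 * Real.log X ≤
        Off S (fun D E => kap (av D) (av E) * LHalf (D * E))) := by
  obtain ⟨cd, hcd, hDD⟩ := dd (i + 1) (by omega)
  have hg := gm_pos
  have hJ := J0_pos
  have hI := I0_nonneg
  have e0 : (i + 1) * (i + 1 + 1) / 2 = (i + 1) * (i + 2) / 2 := by ring_nf
  rw [e0] at hDD
  set e : ℕ := (i + 1) * (i + 2) / 2 with he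
  set δ₁ : ℝ := min δ 1 with hδ₁
  have hδ10 : 0 < δ₁ := lt_min hδ one_pos
  set η : ℝ := δ₁ / (4 * (i + 1)) with hη
  have hi0 : (0 : ℝ) ≤ i := Nat.cast_nonneg i
  have hη0 : 0 < η := by positivity
  have hη1 : η ≤ 1 / 4 := by
    rw [hη, div_le_div_iff₀ (by positivity) (by norm_num)]
    have : δ₁ ≤ 1 := min_le_right _ _
    nlinarith
  have hηi : η * (i + 1) = δ₁ / 4 := by
    rw [hη]
    field_simp
  have hδ4 : δ₁ / 4 ≤ 1 / 4 := by
    have : δ₁ ≤ 1 := min_le_right _ _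
    linarith
  have hδδ : δ₁ ≤ δ := min_le_left _ _
  set c₂ : ℝ := cd * Real.log 2 ^ e with hc₂
  have hlog2 : 0 < Real.log 2 := Real.log_pos (by norm_num)
  have hc₂0 : 0 < c₂ := by positivity
  set C₃ : ℝ := 4 ^ i * (4 * I0 * R) * (16 * R ^ 2) / (J0 * c₂) with hC₃
  have hC₃0 : 0 ≤ C₃ := by positivity
  set c₄ : ℝ := min (3 * J0 / (4 * gm (1 / 2))) (J0 / 2 * (J0 / (4 * gm (1 / 2))) ^ i / gm (1 / 2)) with hc₄
  have hc₄0 : 0 < c₄ := lt_min (by positivity) (by positivity)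
  refine ⟨c₄ * (1 / (4 * R ^ 2) * cd * (η / 2) ^ e), by positivity, ?_⟩
  -- large X
  have hlim1 : Tendsto (fun X : ℝ => X ^ (η / 2)) atTop atTop := tendsto_rpow_atTop (by positivity)
  have hlim2 : Tendsto (fun X : ℝ => X ^ (3 * δ₁ / 4)) atTop atTop := tendsto_rpow_atTop (by positivity)
  obtain ⟨X₁, hX₁⟩ := eventually_atTop.1 ((hlim1.eventually_ge_atTop 2).and
    (hlim2.eventually_ge_atTop C₃))
  refine ⟨max X₁ 16, le_max_of_le_right (by norm_num), fun X hX S hA hcard => ?_⟩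
  obtain ⟨g1, g2⟩ := hX₁ X ((le_max_left _ _).trans hX)
  have hX16 : 16 ≤ X := (le_max_right _ _).trans hX
  have hX0 : 0 < X := by linarith
  have hX1 : 1 ≤ X := by linarith
  set K : ℕ := ⌊X ^ η⌋₊ with hK
  have hXη : 0 < X ^ η := Real.rpow_pos_of_pos hX0 _
  have hXη2 : X ^ η = X ^ (η / 2) * X ^ (η / 2) := by
    rw [← Real.rpow_add hX0]
    congr 1
    ring
  have hKle : (K : ℝ) ≤ X ^ η := Nat.floor_le hXη.le
  have hK2 : 2 ≤ K := by
    rw [hK]
    apply Nat.le_floor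
    rw [hXη2]
    push_cast
    nlinarith
  have hK2R : (2 : ℝ) ≤ K := by exact_mod_cast hK2
  have hKge : X ^ (η / 2) ≤ K := by
    have h1 : X ^ η < K + 1 := Nat.lt_floor_add_one _
    have h2 : X ^ (η / 2) * 2 ≤ X ^ η := by
      rw [hXη2]
      nlinarith
    nlinarith
  have hKK : ((K * K : ℕ) : ℝ) ≤ X := by
    push_cast
    calc (K : ℝ) * K ≤ X ^ η * X ^ η := mul_le_mul hKle hKle (by positivity) hXη.le
      _ = X ^ (η + η) := by rw [Real.rpow_add hX0]
      _ ≤ X ^ (1 : ℝ) := Real.rpow_le_rpow_of_exponent_le hX1 (by linarith)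
      _ = X := Real.rpow_one X
  have hKi : ∀ j : ℕ, (K : ℝ) ^ j ≤ X ^ (η * j) := by
    intro j
    rw [Real.rpow_mul hX0.le, Real.rpow_natCast]
    exact pow_le_pow_left₀ (by positivity) hKle j
  have hScard : X ^ (1 / 2 : ℝ) ≤ S.card := by
    refine le_trans ?_ hcard
    exact Real.rpow_le_rpow_of_exponent_le hX1 (by linarith)
  have hKS : 2 * K ^ (i + 1) ≤ S.card := by
    have h1 : (K : ℝ) ^ (i + 1) ≤ X ^ (1 / 4 : ℝ) := by
      refine (hKi (i + 1)).trans (Real.rpow_le_rpow_of_exponent_le hX1 ?_)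
      push_cast
      rw [hηi]
      exact hδ4
    have h2 : 2 ≤ X ^ (1 / 4 : ℝ) := by
      have h3 : (16 : ℝ) ^ (1 / 4 : ℝ) = 2 := by
        have : (16 : ℝ) = 2 ^ (4 : ℝ) := by norm_num
        rw [this, ← Real.rpow_mul (by norm_num)]
        norm_num
      rw [← h3]
      exact Real.rpow_le_rpow (by norm_num) hX16 (by norm_num)
    have h3 : X ^ (1 / 2 : ℝ) = X ^ (1 / 4 : ℝ) * X ^ (1 / 4 : ℝ) := by
      rw [← Real.rpow_add hX0]
      norm_num
    have h4 : (2 : ℝ) * (K : ℝ) ^ (i + 1) ≤ S.card := by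
      refine le_trans ?_ hScard
      rw [h3]
      have h5 : 0 ≤ (K : ℝ) ^ (i + 1) := by positivity
      exact mul_le_mul h2 h1 h5 (by positivity)
    exact_mod_cast h4
  have hU := UU_ge hX0 hR hA hKS
  have hDK := hDD K hK2
  have hlogK2 : Real.log 2 ≤ Real.log K := Real.log_le_log (by norm_num) hK2R
  have hlogK : η / 2 * Real.log X ≤ Real.log K := by
    rw [← Real.log_rpow hX0]
    exact Real.log_le_log (Real.rpow_pos_of_pos hX0 _) hKge
  have hlogX : 0 ≤ Real.log X := Real.log_nonneg hX1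
  have hR2 : 0 < R ^ 2 := by positivity
  have hS0 : (0 : ℝ) < S.card := lt_of_lt_of_le (Real.rpow_pos_of_pos hX0 _) hScard
  have hU1 : (S.card : ℝ) ^ 2 / (4 * R ^ 2) * c₂ ≤ UU S K (2 * (i + 1)) := by
    refine le_trans ?_ hU
    apply mul_le_mul_of_nonneg_left _ (by positivity)
    refine le_trans ?_ hDK
    rw [hc₂]
    exact mul_le_mul_of_nonneg_left (pow_le_pow_left₀ hlog2.le hlogK2 e) hcd.le
  have hU2 : (S.card : ℝ) ^ 2 * Real.log X ^ e * (1 / (4 * R ^ 2) * cd * (η / 2) ^ e) ≤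
      UU S K (2 * (i + 1)) := by
    refine le_trans ?_ hU
    have h1 : cd * (η / 2 * Real.log X) ^ e ≤ DD (i + 1) K := by
      refine le_trans ?_ hDK
      exact mul_le_mul_of_nonneg_left (pow_le_pow_left₀ (by positivity) hlogK e) hcd.le
    calc (S.card : ℝ) ^ 2 * Real.log X ^ e * (1 / (4 * R ^ 2) * cd * (η / 2) ^ e) =
        (S.card : ℝ) ^ 2 / (4 * R ^ 2) * (cd * (η / 2 * Real.log X) ^ e) := by
          rw [mul_pow]
          ring
      _ ≤ _ := mul_le_mul_of_nonneg_left h1 (by positivity)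
  have hdiag : S.card * ((4 * K) ^ i * (4 * I0 * (R * Real.sqrt X))) ≤
      J0 / 4 * UU S K (2 * (i + 1)) := by
    have h1 : C₃ * X ^ (1 / 2 + δ₁ / 4) ≤ S.card := by
      calc C₃ * X ^ (1 / 2 + δ₁ / 4) ≤ X ^ (3 * δ₁ / 4) * X ^ (1 / 2 + δ₁ / 4) :=
            mul_le_mul_of_nonneg_right g2 (Real.rpow_nonneg hX0.le _)
        _ = X ^ (1 / 2 + δ₁) := by
            rw [← Real.rpow_add hX0]
            congr 1
            ring
        _ ≤ X ^ (1 / 2 + δ) := Real.rpow_le_rpow_of_exponent_le hX1 (by linarith)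
        _ ≤ _ := hcard
    have h2 : (K : ℝ) ^ i ≤ X ^ (δ₁ / 4) := by
      refine (hKi i).trans (Real.rpow_le_rpow_of_exponent_le hX1 ?_)
      rw [← hηi]
      nlinarith
    have h3 : Real.sqrt X = X ^ (1 / 2 : ℝ) := Real.sqrt_eq_rpow X
    have h4 : (4 * (K : ℝ)) ^ i * (4 * I0 * (R * Real.sqrt X)) ≤
        4 ^ i * (4 * I0 * R) * X ^ (1 / 2 + δ₁ / 4) := by
      rw [mul_pow, h3, Real.rpow_add hX0]
      have h5 : 0 ≤ 4 ^ i * (4 * I0 * R) * X ^ (1 / 2 : ℝ) := by positivity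
      calc 4 ^ i * (K : ℝ) ^ i * (4 * I0 * (R * X ^ (1 / 2 : ℝ))) =
          (4 ^ i * (4 * I0 * R) * X ^ (1 / 2 : ℝ)) * (K : ℝ) ^ i := by ring
        _ ≤ (4 ^ i * (4 * I0 * R) * X ^ (1 / 2 : ℝ)) * X ^ (δ₁ / 4) := mul_le_mul_of_nonneg_left h2 h5
        _ = _ := by ring
    have h6 : 4 ^ i * (4 * I0 * R) * X ^ (1 / 2 + δ₁ / 4) ≤ J0 / 4 * ((S.card : ℝ) / (4 * R ^ 2) * c₂) := by
      have h7 : 4 ^ i * (4 * I0 * R) = C₃ * (J0 * c₂) / (16 * R ^ 2) := by
        rw [hC₃]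
        field_simp
      rw [h7]
      calc C₃ * (J0 * c₂) / (16 * R ^ 2) * X ^ (1 / 2 + δ₁ / 4) =
          (C₃ * X ^ (1 / 2 + δ₁ / 4)) * (J0 * c₂ / (16 * R ^ 2)) := by ring
        _ ≤ S.card * (J0 * c₂ / (16 * R ^ 2)) := mul_le_mul_of_nonneg_right h1 (by positivity)
        _ = _ := by ring
    calc S.card * ((4 * (K : ℝ)) ^ i * (4 * I0 * (R * Real.sqrt X))) ≤
        S.card * (J0 / 4 * ((S.card : ℝ) / (4 * R ^ 2) * c₂)) :=
          mul_le_mul_of_nonneg_left (h4.trans h6) hS0.le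
      _ = J0 / 4 * ((S.card : ℝ) ^ 2 / (4 * R ^ 2) * c₂) := by ring
      _ ≤ _ := mul_le_mul_of_nonneg_left hU1 (by positivity)
  obtain ⟨r1, r2⟩ := core hX0 hR hA hKK hdiag
  have hU0 : 0 ≤ UU S K (2 * (i + 1)) := le_trans (by positivity) hU1
  constructor
  · refine le_trans ?_ r2
    calc c₄ * (1 / (4 * R ^ 2) * cd * (η / 2) ^ e) * (S.card : ℝ) ^ 2 * Real.log X ^ e =
        c₄ * ((S.card : ℝ) ^ 2 * Real.log X ^ e * (1 / (4 * R ^ 2) * cd * (η / 2) ^ e)) := by ring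
      _ ≤ c₄ * UU S K (2 * (i + 1)) := mul_le_mul_of_nonneg_left hU2 hc₄0.le
      _ ≤ _ := mul_le_mul_of_nonneg_right (min_le_right _ _) hU0
  · intro hi
    subst hi
    have he1 : e = 1 := by rw [he]
    have r1' : 3 * J0 / (4 * gm (1 / 2)) * UU S K (2 * (0 + 1)) ≤
        Off S (fun D E => kap (av D) (av E) * LHalf (D * E)) := by
      refine r1.trans (le_of_eq ?_)
      congr 1
      funext D E
      rw [mul_zero, pow_zero, mul_one]
    refine le_trans ?_ r1'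
    calc c₄ * (1 / (4 * R ^ 2) * cd * (η / 2) ^ e) * (S.card : ℝ) ^ 2 * Real.log X =
        c₄ * ((S.card : ℝ) ^ 2 * Real.log X ^ e * (1 / (4 * R ^ 2) * cd * (η / 2) ^ e)) := by
          rw [he1]
          ring
      _ ≤ c₄ * UU S K (2 * (0 + 1)) := mul_le_mul_of_nonneg_left hU2 hc₄0.le
      _ ≤ _ := mul_le_mul_of_nonneg_right (min_le_left _ _) hU0

open Classical in
/-- the pairs with a large central value -/
def big (S : Finset ℤ) (V : ℝ) : Finset (ℤ × ℤ) :=
  (S ×ˢ S).filter fun p => p.1 ≠ p.2 ∧ V ≤ LHalf (p.1 * p.2)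

/-- **Many positive central values** -/
theorem many {δ R : ℝ} (hδ : 0 < δ) (hR : 1 ≤ R) : ∃ c : ℝ, 0 < c ∧ ∃ X₀ : ℝ, 1 ≤ X₀ ∧
    ∀ X : ℝ, X₀ ≤ X → ∀ S : Finset ℤ, Adm S X R → X ^ (1 / 2 + δ) ≤ S.card →
      c * (S.card : ℝ) ^ 2 * Real.log X / Real.sqrt X ≤ (big S (c * Real.log X)).card := by
  classical
  obtain ⟨c, hc, X₀, hX₀, h⟩ := moments 0 hδ hR
  have hg := gm_pos
  have hI := I0_nonneg
  set C : ℝ := 4 * I0 * R / gm (1 / 2) + 1 with hC
  have hC0 : 0 < C := by positivity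
  refine ⟨min (c / 2) (c / 2 / C), by positivity, X₀, hX₀, fun X hX S hA hcard => ?_⟩
  have h1 := (h X hX S hA hcard).2 rfl
  have hX1 : 1 ≤ X := hX₀.trans hX
  have hX0 : 0 < X := by linarith
  have hlog : 0 ≤ Real.log X := Real.log_nonneg hX1
  have hsq : 0 < Real.sqrt X := Real.sqrt_pos.2 hX0
  set c' : ℝ := min (c / 2) (c / 2 / C) with hc'
  have hc'0 : 0 < c' := by positivity
  -- pointwise
  have h2 : Off S (fun D E => kap (av D) (av E) * LHalf (D * E)) ≤
      Off S (fun D E => 1 * (c / 2 * Real.log X) +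
        (C * Real.sqrt X) * (if c' * Real.log X ≤ LHalf (D * E) then 1 else 0)) := by
    refine off_mono fun D hD E hE hDE => ?_
    have ha := av_pos (adm_ne hA D hD)
    have hb := av_pos (adm_ne hA E hE)
    have hk0 := (kap_pos ha hb).le
    have hk1 := kap_le ha hb
    have hup := LHalf_le hX0 hR hA hD hE hDE
    have hL : |LHalf (D * E)| ≤ C * Real.sqrt X := by
      have h3 : |LHalf (D * E)| ≤ 4 * I0 * (R * Real.sqrt X) / gm (1 / 2) := by
        rw [le_div_iff₀ hg]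
        exact hup
      refine h3.trans ?_
      rw [hC]
      have : 4 * I0 * (R * Real.sqrt X) / gm (1 / 2) = 4 * I0 * R / gm (1 / 2) * Real.sqrt X := by ring
      rw [this]
      nlinarith
    have hcl : 0 ≤ c / 2 * Real.log X := by positivity
    split_ifs with hif
    · have h4 : kap (av D) (av E) * LHalf (D * E) ≤ C * Real.sqrt X := by
        calc kap (av D) (av E) * LHalf (D * E) ≤ kap (av D) (av E) * |LHalf (D * E)| :=
              mul_le_mul_of_nonneg_left (le_abs_self _) hk0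
          _ ≤ 1 * |LHalf (D * E)| := mul_le_mul_of_nonneg_right hk1 (abs_nonneg _)
          _ ≤ _ := by rw [one_mul]; exact hL
      linarith
    · push Not at hif
      have h4 : LHalf (D * E) ≤ c / 2 * Real.log X := by
        refine hif.le.trans ?_
        exact mul_le_mul_of_nonneg_right (min_le_left _ _) hlog
      have h5 : kap (av D) (av E) * LHalf (D * E) ≤ kap (av D) (av E) * (c / 2 * Real.log X) :=
        mul_le_mul_of_nonneg_left h4 hk0
      have h6 : kap (av D) (av E) * (c / 2 * Real.log X) ≤ 1 * (c / 2 * Real.log X) :=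
        mul_le_mul_of_nonneg_right hk1 hcl
      linarith
  rw [off_lin] at h2
  have h3 : Off S (fun _ _ => c / 2 * Real.log X) ≤ (S.card : ℝ) ^ 2 * (c / 2 * Real.log X) :=
    off_card S _ (by positivity)
  have h4 : Off S (fun D E => (if c' * Real.log X ≤ LHalf (D * E) then (1 : ℝ) else 0)) =
      (big S (c' * Real.log X)).card := by
    unfold Off big
    rw [card_filter, Nat.cast_sum, sum_product]
    refine sum_congr rfl fun D hD => ?_
    rw [← sum_erase S (a := D)]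
    · refine sum_congr rfl fun E hE => ?_
      have hne := (mem_erase.1 hE).1
      simp only
      by_cases h5 : c' * Real.log X ≤ LHalf (D * E)
      · rw [if_pos h5, if_pos ⟨Ne.symm hne, h5⟩]
        norm_num
      · rw [if_neg h5, if_neg (fun h => h5 h.2)]
        norm_num
    · rw [if_neg (fun h => h.1 rfl)]
      norm_num
  rw [h4] at h2
  have h5 : c / 2 * (S.card : ℝ) ^ 2 * Real.log X ≤ C * Real.sqrt X * (big S (c' * Real.log X)).card := by
    nlinarith
  rw [div_le_iff₀ hsq]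
  calc c' * (S.card : ℝ) ^ 2 * Real.log X ≤ c / 2 / C * (S.card : ℝ) ^ 2 * Real.log X := by
        apply mul_le_mul_of_nonneg_right _ hlog
        exact mul_le_mul_of_nonneg_right (min_le_right _ _) (sq_nonneg _)
    _ = (c / 2 * (S.card : ℝ) ^ 2 * Real.log X) / C := by ring
    _ ≤ (C * Real.sqrt X * (big S (c' * Real.log X)).card) / C := div_le_div_of_nonneg_right h5 hC0.le
    _ = _ := by
      field_simp

end

end Pool.Agent.H86.QC
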