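import Pool.Agent.H86.QC.F

set_option autoImplicit false

/-!
# Arbitrary sets of pairwise coprime fundamental discriminants
-/

namespace Pool.Agent.H86.QC

open Finset Filter Topology
open Pool.Agent.Q122.FM (kron IsFund LHalf kr2)

noncomputable section

/-- pairwise coprime fundamental discriminants of size between `X` and `R X` -/
def Fml (S : Finset ℤ) (X R : ℝ) : Prop :=
  (∀ D ∈ S, IsFund D ∧ X ≤ |(D : ℝ)| ∧ |(D : ℝ)| ≤ R * X) ∧
    ∀ D ∈ S, ∀ E ∈ S, D ≠ E → IsCoprime D E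

/-- the product of coprime fundamental discriminants -/
theorem fund_mul {D E : ℤ} (hD : IsFund D) (hE : IsFund E) (hc : IsCoprime D E) : IsFund (D * E) := by
  rcases hD with ⟨h1, h2⟩ | ⟨m, rfl, h2, h3⟩
  · rcases hE with ⟨k1, k2⟩ | ⟨n, rfl, k2, k3⟩
    · refine Or.inl ⟨?_, ?_⟩
      · rw [Int.mul_emod, h1, k1]
        norm_num
      · exact (squarefree_mul_iff).2 ⟨hc.isRelPrime, h2, k2⟩
    · refine Or.inr ⟨D * n, by ring, ?_, ?_⟩
      · rw [Int.mul_emod, h1]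
        omega
      · have hc' : IsCoprime D n := hc.of_mul_right_right
        exact (squarefree_mul_iff).2 ⟨hc'.isRelPrime, h2, k3⟩
  · rcases hE with ⟨k1, k2⟩ | ⟨n, rfl, k2, k3⟩
    · refine Or.inr ⟨m * E, by ring, ?_, ?_⟩
      · rw [Int.mul_emod, k1]
        omega
      · have hc' : IsCoprime m E := hc.of_mul_left_right
        exact (squarefree_mul_iff).2 ⟨hc'.isRelPrime, h3, k2⟩
    · exfalso
      have h4 : IsCoprime (4 : ℤ) 4 := hc.of_mul_left_left.of_mul_right_left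
      rw [Int.isCoprime_iff_gcd_eq_one] at h4
      norm_num at h4

/-- it is not one -/
theorem mul_ne_one {D E : ℤ} (h : D ≠ E) : D * E ≠ 1 := by
  intro h1
  rcases Int.mul_eq_one_iff_eq_one_or_neg_one.1 h1 with ⟨h2, h3⟩ | ⟨h2, h3⟩
  · exact h (h2.trans h3.symm)
  · exact h (h2.trans h3.symm)

theorem even_few {S : Finset ℤ} {X R : ℝ} (hS : Fml S X R) :
    (S.filter fun D : ℤ => ¬ D % 4 = 1).card ≤ 1 := by
  rw [card_le_one]
  intro D hD E hE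
  obtain ⟨hD, hD4⟩ := mem_filter.1 hD
  obtain ⟨hE, hE4⟩ := mem_filter.1 hE
  by_contra hne
  have hc := hS.2 D hD E hE hne
  rcases (hS.1 D hD).1 with h | ⟨m, rfl, -, -⟩
  · exact hD4 h.1
  · rcases (hS.1 E hE).1 with h | ⟨n, rfl, -, -⟩
    · exact hE4 h.1
    · have h4 : IsCoprime (4 : ℤ) 4 := hc.of_mul_left_left.of_mul_right_left
      rw [Int.isCoprime_iff_gcd_eq_one] at h4
      norm_num at h4

/-- a large admissible subset -/
theorem exists_adm {S : Finset ℤ} {X R : ℝ} (hS : Fml S X R) (h2 : 2 ≤ S.card) :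
    ∃ T ⊆ S, Adm T X R ∧ S.card ≤ 4 * T.card := by
  have h3 := even_few hS
  set T1 := S.filter fun D : ℤ => D % 4 = 1 ∧ 0 < D with hT1
  set T2 := S.filter fun D : ℤ => D % 4 = 1 ∧ D < 0 with hT2
  have hsub : S ⊆ (T1 ∪ T2) ∪ S.filter fun D : ℤ => ¬ D % 4 = 1 := by
    intro D hD
    rw [mem_union, mem_union, hT1, hT2, mem_filter, mem_filter, mem_filter]
    by_cases h : D % 4 = 1
    · rcases lt_trichotomy D 0 with h1 | h1 | h1
      · exact Or.inl (Or.inr ⟨hD, h, h1⟩)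
      · rw [h1] at h
        norm_num at h
      · exact Or.inl (Or.inl ⟨hD, h, h1⟩)
    · exact Or.inr ⟨hD, h⟩
  have h4 : S.card ≤ T1.card + T2.card + 1 := by
    have k1 := card_le_card hsub
    have k2 := card_union_le (T1 ∪ T2) (S.filter fun D : ℤ => ¬ D % 4 = 1)
    have k3 := card_union_le T1 T2
    omega
  have hadm : ∀ T ⊆ S, (∀ D ∈ T, D % 4 = 1) → ((∀ D ∈ T, 0 < D) ∨ (∀ D ∈ T, D < 0)) → Adm T X R := by
    intro T hT h1 hs
    refine ⟨h1, fun D hD => ?_, fun D hD => (hS.1 D (hT hD)).2.1, fun D hD => (hS.1 D (hT hD)).2.2, hs,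
      fun D hD E hE => hS.2 D (hT hD) E (hT hE)⟩
    rcases (hS.1 D (hT hD)).1 with h | ⟨m, h5, -, -⟩
    · exact h.2
    · have := h1 D hD
      omega
  rcases le_total T2.card T1.card with h | h
  · refine ⟨T1, filter_subset _ _, hadm T1 (filter_subset _ _) (fun D hD => (mem_filter.1 hD).2.1)
      (Or.inl fun D hD => (mem_filter.1 hD).2.2), by omega⟩
  · refine ⟨T2, filter_subset _ _, hadm T2 (filter_subset _ _) (fun D hD => (mem_filter.1 hD).2.1)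
      (Or.inr fun D hD => (mem_filter.1 hD).2.2), by omega⟩

/-- passing to the subset -/
theorem reduce {δ : ℝ} (hδ : 0 < δ) (R : ℝ) : ∃ X₀ : ℝ, 1 ≤ X₀ ∧ ∀ X : ℝ, X₀ ≤ X → ∀ S : Finset ℤ, Fml S X R →
    X ^ (1 / 2 + δ) ≤ S.card → ∃ T ⊆ S, Adm T X R ∧ X ^ (1 / 2 + δ / 2) ≤ T.card ∧
      (S.card : ℝ) ≤ 4 * T.card := by
  have hlim : Tendsto (fun X : ℝ => X ^ (δ / 2)) atTop atTop := tendsto_rpow_atTop (by positivity)
  obtain ⟨X₁, hX₁⟩ := eventually_atTop.1 (hlim.eventually_ge_atTop 4)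
  refine ⟨max X₁ 4, le_max_of_le_right (by norm_num), fun X hX S hS hcard => ?_⟩
  have h4 := hX₁ X ((le_max_left _ _).trans hX)
  have hX4 : 4 ≤ X := (le_max_right _ _).trans hX
  have hX0 : 0 < X := by linarith
  have h2 : 2 ≤ S.card := by
    have h3 : (2 : ℝ) ≤ S.card := by
      refine le_trans ?_ hcard
      have h5 : (4 : ℝ) ^ (1 / 2 : ℝ) = 2 := by
        have : (4 : ℝ) = 2 ^ (2 : ℝ) := by norm_num
        rw [this, ← Real.rpow_mul (by norm_num)]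
        norm_num
      calc (2 : ℝ) = (4 : ℝ) ^ (1 / 2 : ℝ) := h5.symm
        _ ≤ X ^ (1 / 2 : ℝ) := Real.rpow_le_rpow (by norm_num) hX4 (by norm_num)
        _ ≤ X ^ (1 / 2 + δ) := Real.rpow_le_rpow_of_exponent_le (by linarith) (by linarith)
    exact_mod_cast h3
  obtain ⟨T, hT, hA, hc⟩ := exists_adm hS h2
  have hcR : (S.card : ℝ) ≤ 4 * T.card := by exact_mod_cast hc
  refine ⟨T, hT, hA, ?_, hcR⟩
  have e : X ^ (1 / 2 + δ) = X ^ (1 / 2 + δ / 2) * X ^ (δ / 2) := by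
    rw [← Real.rpow_add hX0]
    congr 1
    ring
  rw [e] at hcard
  have h5 : 0 < X ^ (1 / 2 + δ / 2) := Real.rpow_pos_of_pos hX0 _
  nlinarith

/-- **Moments** -/
theorem moments_general (k : ℕ) (hk : 1 ≤ k) {δ R : ℝ} (hδ : 0 < δ) (hR : 1 ≤ R) : ∃ c : ℝ, 0 < c ∧
    ∃ X₀ : ℝ, ∀ X : ℝ, X₀ ≤ X → ∀ S : Finset ℤ, Fml S X R → X ^ (1 / 2 + δ) ≤ S.card →
      c * (S.card : ℝ) ^ 2 * Real.log X ^ (k * (k + 1) / 2) ≤
        ∑ D ∈ S, ∑ E ∈ S.erase D, |LHalf (D * E)| ^ k := by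
  obtain ⟨i, rfl⟩ : ∃ i, k = i + 1 := ⟨k - 1, by omega⟩
  obtain ⟨c, hc, X₁, hX₁, h⟩ := moments i (half_pos hδ) hR
  obtain ⟨X₂, hX₂, h2⟩ := reduce hδ R
  refine ⟨c / 16, by positivity, max X₁ X₂, fun X hX S hS hcard => ?_⟩
  obtain ⟨T, hT, hA, hT1, hT2⟩ := h2 X ((le_max_right _ _).trans hX) S hS hcard
  have hX1 : X₁ ≤ X := (le_max_left _ _).trans hX
  have h3 := (h X hX1 T hA hT1).1
  have h4 : Off T (fun D E => |LHalf (D * E)| ^ (i + 1)) ≤ Off S (fun D E => |LHalf (D * E)| ^ (i + 1)) :=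
    off_subset hT fun D E => by positivity
  refine le_trans ?_ (h3.trans h4)
  have hlog : 0 ≤ Real.log X := Real.log_nonneg (hX₁.trans hX1)
  have e : (i + 1) * (i + 1 + 1) / 2 = (i + 1) * (i + 2) / 2 := by ring_nf
  rw [e]
  have h5 : (S.card : ℝ) ^ 2 ≤ 16 * (T.card : ℝ) ^ 2 := by
    have := pow_le_pow_left₀ (Nat.cast_nonneg S.card) hT2 2
    nlinarith
  apply mul_le_mul_of_nonneg_right _ (pow_nonneg hlog _)
  calc c / 16 * (S.card : ℝ) ^ 2 ≤ c / 16 * (16 * (T.card : ℝ) ^ 2) :=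
        mul_le_mul_of_nonneg_left h5 (by positivity)
    _ = _ := by ring

open Classical in
/-- **Many positive values** -/
theorem many_general {δ R : ℝ} (hδ : 0 < δ) (hR : 1 ≤ R) : ∃ c : ℝ, 0 < c ∧
    ∃ X₀ : ℝ, ∀ X : ℝ, X₀ ≤ X → ∀ S : Finset ℤ, Fml S X R → X ^ (1 / 2 + δ) ≤ S.card →
      c * (S.card : ℝ) ^ 2 * Real.log X / Real.sqrt X ≤
        ((S ×ˢ S).filter fun p => p.1 ≠ p.2 ∧ c * Real.log X ≤ LHalf (p.1 * p.2)).card := by
  obtain ⟨c, hc, X₁, hX₁, h⟩ := many (half_pos hδ) hR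
  obtain ⟨X₂, hX₂, h2⟩ := reduce hδ R
  refine ⟨c / 16, by positivity, max X₁ X₂, fun X hX S hS hcard => ?_⟩
  obtain ⟨T, hT, hA, hT1, hT2⟩ := h2 X ((le_max_right _ _).trans hX) S hS hcard
  have hX1 : X₁ ≤ X := (le_max_left _ _).trans hX
  have h3 := h X hX1 T hA hT1
  have hlog : 0 ≤ Real.log X := Real.log_nonneg (hX₁.trans hX1)
  have h4 : (big T (c * Real.log X)).card ≤
      ((S ×ˢ S).filter fun p => p.1 ≠ p.2 ∧ c / 16 * Real.log X ≤ LHalf (p.1 * p.2)).card := by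
    apply card_le_card
    intro p hp
    unfold big at hp
    rw [mem_filter, mem_product] at hp ⊢
    refine ⟨⟨hT hp.1.1, hT hp.1.2⟩, hp.2.1, le_trans ?_ hp.2.2⟩
    apply mul_le_mul_of_nonneg_right _ hlog
    linarith
  have h6 : ((big T (c * Real.log X)).card : ℝ) ≤
      (((S ×ˢ S).filter fun p => p.1 ≠ p.2 ∧ c / 16 * Real.log X ≤ LHalf (p.1 * p.2)).card : ℝ) := by
    exact_mod_cast h4
  refine le_trans ?_ (h3.trans h6)
  have h5 : (S.card : ℝ) ^ 2 ≤ 16 * (T.card : ℝ) ^ 2 := by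
    have := pow_le_pow_left₀ (Nat.cast_nonneg S.card) hT2 2
    nlinarith
  apply div_le_div_of_nonneg_right _ (Real.sqrt_nonneg _)
  apply mul_le_mul_of_nonneg_right _ hlog
  calc c / 16 * (S.card : ℝ) ^ 2 ≤ c / 16 * (16 * (T.card : ℝ) ^ 2) :=
        mul_le_mul_of_nonneg_left h5 (by positivity)
    _ = _ := by ring

/-- **The first moment with signs** -/
theorem first_signed {δ R : ℝ} (hδ : 0 < δ) (hR : 1 ≤ R) : ∃ c : ℝ, 0 < c ∧
    ∃ X₀ : ℝ, ∀ X : ℝ, X₀ ≤ X → ∀ S : Finset ℤ, Fml S X R → (∀ D ∈ S, D % 4 = 1) →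
      ((∀ D ∈ S, 0 < D) ∨ (∀ D ∈ S, D < 0)) → X ^ (1 / 2 + δ) ≤ S.card →
      c * (S.card : ℝ) ^ 2 * Real.log X ≤
        ∑ D ∈ S, ∑ E ∈ S.erase D, 2 * (D : ℝ) * E / ((D : ℝ) ^ 2 + (E : ℝ) ^ 2) * LHalf (D * E) := by
  obtain ⟨c, hc, X₁, hX₁, h⟩ := moments 0 hδ hR
  refine ⟨c, hc, X₁, fun X hX S hS hodd hsgn hcard => ?_⟩
  have hA : Adm S X R := by
    refine ⟨hodd, fun D hD => ?_, fun D hD => (hS.1 D hD).2.1, fun D hD => (hS.1 D hD).2.2, hsgn,
      fun D hD E hE => hS.2 D hD E hE⟩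
    rcases (hS.1 D hD).1 with h | ⟨m, h5, -, -⟩
    · exact h.2
    · have := hodd D hD
      omega
  have h1 := (h X hX S hA hcard).2 rfl
  refine h1.trans (le_of_eq ?_)
  unfold Off
  refine sum_congr rfl fun D hD => sum_congr rfl fun E hE => ?_
  have hs := adm_sgn hA hD (mem_of_mem_erase hE)
  unfold kap av
  have e1 : |(D : ℝ)| * |(E : ℝ)| = D * E := by
    rw [← abs_mul, abs_of_pos]
    exact_mod_cast hs
  beta_reduce
  rw [mul_assoc, e1, sq_abs, sq_abs, mul_assoc]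

end

end Pool.Agent.H86.QC
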