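import Pool.Graph.R_pool_sql_team_seeded_3997aac3.Q251.TQ.Bbl
import Pool.Graph.R_pool_sql_team_seeded_3997aac3.Q208.TQ.Bbu

set_option autoImplicit false

/-!
# The coefficients of the square root of the zeta function, cut at the cubes
-/

namespace Pool.Agent.H86.QC

open Finset

noncomputable section

/-- the coefficients `1`, `1/2`, `3/8` of `(1 - x)^{-1/2}` -/
def bet (k : ℕ) : ℝ := if k = 0 then 1 else if k = 1 then 1 / 2 else if k = 2 then 3 / 8 else 0

theorem bet_nonneg (k : ℕ) : 0 ≤ bet k := by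
  unfold bet
  split_ifs <;> norm_num

/-- the multiplicative function with these values at the prime powers -/
def bb (n : ℕ) : ℝ := ∏ p ∈ n.primeFactors, bet (n.factorization p)

theorem bb_nonneg (n : ℕ) : 0 ≤ bb n := prod_nonneg fun _ _ => bet_nonneg _

theorem bb_one : bb 1 = 1 := by
  unfold bb
  simp

theorem bb_of_subset {n : ℕ} {S : Finset ℕ} (h : n.primeFactors ⊆ S) :
    bb n = ∏ p ∈ S, bet (n.factorization p) := by
  unfold bb
  refine prod_subset h fun p _ hp => ?_
  have : n.factorization p = 0 := Finsupp.notMem_support_iff.1 (by rwa [Nat.support_factorization])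
  rw [this]
  rfl

/-- as an arithmetic function -/
def bA : ArithmeticFunction ℝ := ⟨fun n => if n = 0 then 0 else bb n, if_pos rfl⟩

theorem bA_apply {n : ℕ} (h : n ≠ 0) : bA n = bb n := if_neg h

theorem bA_nonneg (n : ℕ) : 0 ≤ bA n := by
  show 0 ≤ (if n = 0 then (0 : ℝ) else bb n)
  split_ifs
  · exact le_rfl
  · exact bb_nonneg n

theorem bA_mult : bA.IsMultiplicative := by
  rw [ArithmeticFunction.IsMultiplicative.iff_ne_zero]
  refine ⟨by rw [bA_apply one_ne_zero, bb_one], ?_⟩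
  intro m n hm hn hmn
  rw [bA_apply (mul_ne_zero hm hn), bA_apply hm, bA_apply hn]
  unfold bb
  rw [hmn.primeFactors_mul, prod_union hmn.disjoint_primeFactors]
  congr 1
  · refine prod_congr rfl fun p hp => ?_
    rw [Nat.factorization_mul hm hn, Finsupp.add_apply]
    have : n.factorization p = 0 := by
      apply Nat.factorization_eq_zero_of_not_dvd
      intro h
      have h1 := (Nat.prime_of_mem_primeFactors hp)
      exact Nat.Prime.not_coprime_iff_dvd.2 ⟨p, h1, Nat.dvd_of_mem_primeFactors hp, h⟩ hmn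
    rw [this, add_zero]
  · refine prod_congr rfl fun p hp => ?_
    rw [Nat.factorization_mul hm hn, Finsupp.add_apply]
    have : m.factorization p = 0 := by
      apply Nat.factorization_eq_zero_of_not_dvd
      intro h
      have h1 := (Nat.prime_of_mem_primeFactors hp)
      exact Nat.Prime.not_coprime_iff_dvd.2 ⟨p, h1, h, Nat.dvd_of_mem_primeFactors hp⟩ hmn
    rw [this, zero_add]

theorem bA_pow {p : ℕ} (hp : p.Prime) (k : ℕ) : bA (p ^ k) = bet k := by
  rw [bA_apply (pow_ne_zero k hp.ne_zero)]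
  rw [bb_of_subset (S := {p}) (by
    intro q hq
    have h1 := Nat.prime_of_mem_primeFactors hq
    have h2 := Nat.dvd_of_mem_primeFactors hq
    rw [mem_singleton]
    exact (Nat.prime_dvd_prime_iff_eq h1 hp).1 (h1.dvd_of_dvd_pow h2))]
  rw [prod_singleton, hp.factorization_pow, Finsupp.single_eq_same]

theorem conv_le (k : ℕ) : ∑ x ∈ antidiagonal k, bet x.1 * bet x.2 ≤ 1 := by
  rcases Nat.lt_or_ge k 5 with h | h
  · rw [Nat.sum_antidiagonal_eq_sum_range_succ (fun i j => bet i * bet j)]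
    interval_cases k
    all_goals
      simp only [sum_range_succ, sum_range_zero, bet]
      norm_num
  · have : ∀ x ∈ antidiagonal k, bet x.1 * bet x.2 = 0 := by
      intro x hx
      rw [HasAntidiagonal.mem_antidiagonal] at hx
      rcases Nat.lt_or_ge x.1 3 with h1 | h1
      · have h2 : 3 ≤ x.2 := by omega
        have : bet x.2 = 0 := by
          unfold bet
          rw [if_neg (by omega), if_neg (by omega), if_neg (by omega)]
        rw [this, mul_zero]
      · have : bet x.1 = 0 := by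
          unfold bet
          rw [if_neg (by omega), if_neg (by omega), if_neg (by omega)]
        rw [this, zero_mul]
    rw [sum_congr rfl this, sum_const_zero]
    exact zero_le_one

/-- the convolution square is at most `1` -/
theorem bA_sq_le {m : ℕ} (hm : m ≠ 0) : (bA * bA) m ≤ 1 := by
  rw [ArithmeticFunction.IsMultiplicative.multiplicative_factorization _ (bA_mult.mul bA_mult) hm]
  unfold Finsupp.prod
  refine prod_le_one (fun p _ => ?_) (fun p hp => ?_)
  · show 0 ≤ (bA * bA) (p ^ (m.factorization p))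
    rw [ArithmeticFunction.mul_apply]
    exact sum_nonneg fun x _ => mul_nonneg (bA_nonneg _) (bA_nonneg _)
  · rw [Nat.support_factorization] at hp
    have hpp := Nat.prime_of_mem_primeFactors hp
    show (bA * bA) (p ^ (m.factorization p)) ≤ 1
    rw [Pool.Agent.Q208.TQ.zmul_prime_pow bA bA hpp]
    simp only [bA_pow hpp]
    exact conv_le _

/-- the square of the polynomial with these coefficients is dominated by the zeta polynomial -/
theorem dom_sq (K : ℕ) (S : ℕ → ℝ) (hS : ∀ m, 0 ≤ S m) :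
    ∑ a ∈ Icc 1 K, ∑ b ∈ Icc 1 K, bb a * bb b / Real.sqrt ((a * b : ℕ) : ℝ) * S (a * b) ≤
      ∑ m ∈ Icc 1 (K * K), S m / Real.sqrt m := by
  rw [← sum_product']
  have hmaps : ∀ x ∈ Icc 1 K ×ˢ Icc 1 K, x.1 * x.2 ∈ Icc 1 (K * K) := by
    intro x hx
    rw [mem_product, mem_Icc, mem_Icc] at hx
    rw [mem_Icc]
    exact ⟨Nat.mul_pos hx.1.1 hx.2.1, Nat.mul_le_mul hx.1.2 hx.2.2⟩
  rw [← sum_fiberwise_of_maps_to hmaps]
  refine sum_le_sum fun m hm => ?_
  rw [mem_Icc] at hm
  have hm0 : m ≠ 0 := by omega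
  have h1 : ∑ x ∈ (Icc 1 K ×ˢ Icc 1 K).filter (fun x => x.1 * x.2 = m),
      bb x.1 * bb x.2 / Real.sqrt ((x.1 * x.2 : ℕ) : ℝ) * S (x.1 * x.2) =
      (∑ x ∈ (Icc 1 K ×ˢ Icc 1 K).filter (fun x => x.1 * x.2 = m), bA x.1 * bA x.2) *
        (S m / Real.sqrt m) := by
    rw [sum_mul]
    refine sum_congr rfl fun x hx => ?_
    rw [mem_filter, mem_product, mem_Icc, mem_Icc] at hx
    rw [hx.2, bA_apply (by omega), bA_apply (by omega)]
    ring
  rw [h1]
  have h2 : ∑ x ∈ (Icc 1 K ×ˢ Icc 1 K).filter (fun x => x.1 * x.2 = m), bA x.1 * bA x.2 ≤ 1 := by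
    refine le_trans ?_ (bA_sq_le hm0)
    rw [ArithmeticFunction.mul_apply]
    refine sum_le_sum_of_subset_of_nonneg ?_ fun x _ _ => mul_nonneg (bA_nonneg _) (bA_nonneg _)
    intro x hx
    rw [mem_filter] at hx
    exact Nat.mem_divisorsAntidiagonal.2 ⟨hx.2, hm0⟩
  have h3 : 0 ≤ S m / Real.sqrt m := div_nonneg (hS m) (Real.sqrt_nonneg _)
  nlinarith

/-! ### the diagonal -/

open Pool.Agent.Q251.TQ (mlt mlt_sum mlt_inj prs prs_card tup' tup'_prod tup'_fact SF)
open Pool.Agent.Q255.TQ (Tu)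

theorem wt_eq {n : ℕ} (x : Fin n × Fin n) :
    ∏ i, bet (mlt x i) = 1 / 4 + (if x.1 = x.2 then 1 / 8 else 0) := by
  obtain ⟨a, b⟩ := x
  by_cases h : a = b
  · subst h
    rw [if_pos rfl]
    rw [prod_eq_single a]
    · have : mlt (a, a) a = 2 := by simp [mlt]
      rw [this]
      unfold bet
      norm_num
    · intro i _ hi
      have : mlt (a, a) i = 0 := by
        unfold mlt
        rw [if_neg (fun e => hi e.symm)]
      rw [this]
      rfl
    · intro h
      exact absurd (mem_univ a) h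
  · rw [if_neg h]
    have h1 : ∏ i, bet (mlt (a, b) i) = ∏ i ∈ ({a, b} : Finset (Fin n)), bet (mlt (a, b) i) := by
      symm
      refine prod_subset (subset_univ _) fun i _ hi => ?_
      rw [mem_insert, mem_singleton, not_or] at hi
      have : mlt (a, b) i = 0 := by
        unfold mlt
        rw [if_neg (fun e => hi.1 e.symm), if_neg (fun e => hi.2 e.symm)]
      rw [this]
      rfl
    rw [h1, prod_pair h]
    have e1 : mlt (a, b) a = 1 := by
      unfold mlt
      rw [if_pos rfl, if_neg (fun e => h e.symm)]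
    have e2 : mlt (a, b) b = 1 := by
      unfold mlt
      rw [if_neg h, if_pos rfl]
    rw [e1, e2]
    unfold bet
    norm_num

theorem wt_sum (k : ℕ) : ∑ x ∈ prs (2 * k), ∏ i, bet (mlt x i) = ((k * (k + 1) / 2 : ℕ) : ℝ) := by
  rw [sum_congr rfl fun x _ => wt_eq x, sum_add_distrib, sum_const, prs_card, nsmul_eq_mul]
  have h1 : ∑ x ∈ prs (2 * k), (if x.1 = x.2 then (1 / 8 : ℝ) else 0) = 2 * k / 8 := by
    rw [← sum_filter, sum_const, nsmul_eq_mul]
    have h2 : ((prs (2 * k)).filter fun x => x.1 = x.2).card = 2 * k := by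
      have h3 : (prs (2 * k)).filter (fun x => x.1 = x.2) =
          (univ : Finset (Fin (2 * k))).image (fun i => (i, i)) := by
        ext ⟨a, b⟩
        unfold prs
        simp only [mem_filter, mem_univ, true_and, mem_image, Prod.mk.injEq]
        constructor
        · rintro ⟨_, h⟩
          exact ⟨a, rfl, h⟩
        · rintro ⟨i, rfl, rfl⟩
          exact ⟨le_rfl, rfl⟩
      rw [h3, card_image_of_injective _ (fun i j h => (Prod.mk.inj h).1), card_univ, Fintype.card_fin]
    rw [h2]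
    push_cast
    ring
  rw [h1]
  have h4 : 2 * k * (2 * k + 1) / 2 = k * (2 * k + 1) := by
    have : 2 * k * (2 * k + 1) = k * (2 * k + 1) * 2 := by ring
    rw [this, Nat.mul_div_cancel _ (by norm_num)]
  have h5 : (((k * (k + 1) / 2 : ℕ)) : ℝ) = k * (k + 1) / 2 := by
    have h6 : 2 ∣ k * (k + 1) := (Nat.even_mul_succ_self k).two_dvd
    rw [Nat.cast_div h6 (by norm_num)]
    push_cast
    ring
  rw [h4, h5]
  push_cast
  ring

/-- the weight of a tuple -/
theorem bb_tup {n m : ℕ} (φ : m.primeFactors → Fin n × Fin n) (i : Fin n) :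
    bb (tup' m φ i) = ∏ p : m.primeFactors, bet (mlt (φ p) i) := by
  have hsub : (tup' m φ i).primeFactors ⊆ m.primeFactors := by
    intro q hq
    have hq1 := Nat.prime_of_mem_primeFactors hq
    have hq2 := Nat.dvd_of_mem_primeFactors hq
    unfold tup' at hq2
    obtain ⟨p, _, hp⟩ := (Prime.dvd_finsetProd_iff hq1.prime _).1 hq2
    have h1 := hq1.dvd_of_dvd_pow hp
    rw [(Nat.prime_dvd_prime_iff_eq hq1 (Nat.prime_of_mem_primeFactors p.2)).1 h1]
    exact p.2
  rw [bb_of_subset hsub, ← prod_coe_sort]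
  refine prod_congr rfl fun p _ => ?_
  rw [tup'_fact]

theorem weighted_card (k N m : ℕ) (hm : Squarefree m) (hN : m ^ 2 ≤ N) :
    ((k * (k + 1) / 2 : ℕ) : ℝ) ^ m.primeFactors.card ≤
      ∑ t ∈ (Tu (2 * k) N).filter (fun t => ∏ i, t i = m ^ 2), ∏ i, bb (t i) := by
  classical
  have h1 : ((k * (k + 1) / 2 : ℕ) : ℝ) ^ m.primeFactors.card =
      ∑ φ ∈ Fintype.piFinset fun _ : m.primeFactors => prs (2 * k), ∏ i, bb (tup' m φ i) := by
    rw [← wt_sum k]
    have h2 : (∑ x ∈ prs (2 * k), ∏ i, bet (mlt x i)) ^ m.primeFactors.card =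
        ∏ _p : m.primeFactors, ∑ x ∈ prs (2 * k), ∏ i, bet (mlt x i) := by
      rw [prod_const, card_univ, Fintype.card_coe]
    rw [h2, prod_univ_sum]
    refine sum_congr rfl fun φ _ => ?_
    rw [prod_congr rfl fun i _ => bb_tup φ i, prod_comm]
  rw [h1]
  have hinj : Set.InjOn (fun φ : m.primeFactors → Fin (2 * k) × Fin (2 * k) => tup' m φ)
      (Fintype.piFinset fun _ : m.primeFactors => prs (2 * k)) := by
    intro φ hφ ψ hψ h
    funext p
    have hφ' := Fintype.mem_piFinset.1 (mem_coe.1 hφ) p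
    have hψ' := Fintype.mem_piFinset.1 (mem_coe.1 hψ) p
    unfold prs at hφ' hψ'
    refine mlt_inj _ _ (mem_filter.1 hφ').2 (mem_filter.1 hψ').2 fun i => ?_
    rw [← tup'_fact m φ i p, ← tup'_fact m ψ i p]
    have : tup' m φ i = tup' m ψ i := congrFun h i
    rw [this]
  rw [← sum_image (f := fun t : Fin (2 * k) → ℕ => ∏ i, bb (t i)) hinj]
  refine sum_le_sum_of_subset_of_nonneg ?_ fun t _ _ => prod_nonneg fun i _ => bb_nonneg _
  intro t ht
  obtain ⟨φ, _, rfl⟩ := mem_image.1 ht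
  have hprod := tup'_prod m hm φ
  have hm1 : 1 ≤ m ^ 2 := Nat.one_le_iff_ne_zero.2 (pow_ne_zero _ hm.ne_zero)
  rw [mem_filter]
  refine ⟨Fintype.mem_piFinset.2 fun i => ?_, hprod⟩
  have hd : tup' m φ i ∣ m ^ 2 := by
    rw [← hprod]
    exact dvd_prod_of_mem _ (mem_univ i)
  rw [mem_Icc]
  exact ⟨Nat.pos_of_dvd_of_pos hd hm1, (Nat.le_of_dvd hm1 hd).trans hN⟩

/-- the diagonal sum -/
def DD (k N : ℕ) : ℝ :=
  ∑ t ∈ (Tu (2 * k) N).filter (fun t => IsSquare (∏ i, t i)),
    (∏ i, bb (t i)) / Real.sqrt ((∏ i, t i : ℕ) : ℝ)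

theorem DD_lower (k N M : ℕ) (hMN : M ^ 2 ≤ N) :
    ∑ m ∈ SF M, ((k * (k + 1) / 2 : ℕ) : ℝ) ^ m.primeFactors.card / m ≤ DD k N := by
  classical
  have hmem : ∀ m ∈ SF M, Squarefree m ∧ Odd m ∧ 1 ≤ m ∧ m ≤ M := by
    intro m hm
    unfold SF at hm
    rw [mem_filter, mem_Icc] at hm
    exact ⟨hm.2.1, hm.2.2, hm.1.1, hm.1.2⟩
  have h1 : ∀ m ∈ SF M, ((k * (k + 1) / 2 : ℕ) : ℝ) ^ m.primeFactors.card / m ≤
      ∑ t ∈ (Tu (2 * k) N).filter (fun t => ∏ i, t i = m ^ 2),
        (∏ i, bb (t i)) / Real.sqrt ((∏ i, t i : ℕ) : ℝ) := by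
    intro m hm
    obtain ⟨hsq, _, hm1, hmM⟩ := hmem m hm
    have hm2 : m ^ 2 ≤ N := (Nat.pow_le_pow_left hmM 2).trans hMN
    have h2 := weighted_card k N m hsq hm2
    have h3 : ∀ t ∈ (Tu (2 * k) N).filter (fun t => ∏ i, t i = m ^ 2),
        (∏ i, bb (t i)) / Real.sqrt ((∏ i, t i : ℕ) : ℝ) = (∏ i, bb (t i)) / m := by
      intro t ht
      rw [(mem_filter.1 ht).2]
      congr 1
      push_cast
      exact Real.sqrt_sq (Nat.cast_nonneg m)
    rw [sum_congr rfl h3, ← sum_div]
    gcongr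
  refine (sum_le_sum h1).trans ?_
  rw [← sum_biUnion]
  · unfold DD
    refine sum_le_sum_of_subset_of_nonneg ?_ fun t _ _ =>
      div_nonneg (prod_nonneg fun i _ => bb_nonneg _) (Real.sqrt_nonneg _)
    intro t ht
    obtain ⟨m, hm, ht⟩ := mem_biUnion.1 ht
    rw [mem_filter] at ht ⊢
    refine ⟨ht.1, m, ?_⟩
    rw [ht.2, sq]
  · intro a _ b _ hab
    rw [Function.onFun, disjoint_left]
    intro t ht ht'
    rw [mem_filter] at ht ht'
    have : a ^ 2 = b ^ 2 := ht.2.symm.trans ht'.2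
    exact hab (Nat.pow_left_injective (by norm_num : (2 : ℕ) ≠ 0) this)

/-- **The size of the diagonal** -/
theorem dd (k : ℕ) (hk : 1 ≤ k) : ∃ c : ℝ, 0 < c ∧ ∀ N : ℕ, 2 ≤ N →
    c * Real.log N ^ (k * (k + 1) / 2) ≤ DD k N := by
  classical
  set K : ℕ := k * (k + 1) / 2 with hK
  have hK1 : 1 ≤ K := by
    rw [hK, Nat.le_div_iff_mul_le (by norm_num)]
    nlinarith
  obtain ⟨c, hc, hl⟩ := Pool.Agent.Q162.MB.t_LBM K hK1
  have hB1 : ∀ N : ℕ, 1 ≤ N → 1 ≤ DD k N := by
    intro N hN
    have h1 := DD_lower k N 1 (by simpa using hN)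
    have h2 : SF 1 = {1} := by
      unfold SF
      ext m
      simp only [mem_filter, mem_Icc, mem_singleton]
      constructor
      · rintro ⟨⟨h1, h2⟩, _⟩; omega
      · rintro rfl; exact ⟨⟨le_rfl, le_rfl⟩, squarefree_one, odd_one⟩
    rw [h2, sum_singleton] at h1
    simp only [Nat.primeFactors_one, card_empty, pow_zero, Nat.cast_one, div_one] at h1
    exact h1
  refine ⟨min (c / 4 ^ K) (1 / 2 ^ K), by positivity, ?_⟩
  intro N hN
  have hNR : (2 : ℝ) ≤ N := by exact_mod_cast hN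
  have hlog : 0 ≤ Real.log N := Real.log_nonneg (by linarith)
  rcases Nat.lt_or_ge N 4 with h4 | h4
  · have h1 : Real.log N ≤ 2 := by
      have : Real.log N ≤ N - 1 := Real.log_le_sub_one_of_pos (by linarith)
      have h5 : (N : ℝ) ≤ 3 := by exact_mod_cast (by omega : N ≤ 3)
      linarith
    calc min (c / 4 ^ K) (1 / 2 ^ K) * Real.log N ^ K ≤ (1 / 2 ^ K) * 2 ^ K := by
          refine mul_le_mul (min_le_right _ _) (pow_le_pow_left₀ hlog h1 K) (by positivity)
            (by positivity)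
      _ = 1 := by field_simp
      _ ≤ _ := hB1 N (by omega)
  · set M : ℕ := Nat.sqrt N with hM
    have hM2 : 2 ≤ M := Nat.le_sqrt.2 (by omega)
    have hMN : M ^ 2 ≤ N := by rw [sq]; exact Nat.sqrt_le N
    have hMN2 : N < (M + 1) ^ 2 := by rw [sq]; exact Nat.lt_succ_sqrt N
    have hN4 : N ≤ M ^ 4 := by
      have : (M + 1) ^ 2 ≤ M ^ 4 := by
        have h1 : M + 1 ≤ M ^ 2 := by nlinarith
        calc (M + 1) ^ 2 ≤ (M ^ 2) ^ 2 := Nat.pow_le_pow_left h1 2
          _ = M ^ 4 := by ring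
      omega
    have hMR : (2 : ℝ) ≤ M := by exact_mod_cast hM2
    have hlogM : 0 ≤ Real.log M := Real.log_nonneg (by linarith)
    have hlogN : Real.log N ≤ 4 * Real.log M := by
      have : Real.log N ≤ Real.log ((M : ℝ) ^ 4) := by
        refine Real.log_le_log (by linarith) ?_
        exact_mod_cast hN4
      rw [Real.log_pow] at this
      exact_mod_cast this
    have h1 := hl M 1 (by omega) le_rfl
    have h2 : (Icc 1 M).filter (fun m => Squarefree m ∧ Odd m ∧ m.Coprime 1) = SF M := by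
      unfold SF
      refine filter_congr fun m _ => ?_
      simp
    rw [h2] at h1
    simp only [Nat.primeFactors_one, prod_empty, inv_one, mul_one] at h1
    have h5 := DD_lower k N M hMN
    rw [← hK] at h5
    calc min (c / 4 ^ K) (1 / 2 ^ K) * Real.log N ^ K ≤
          c / 4 ^ K * (4 * Real.log M) ^ K := by
          refine mul_le_mul (min_le_left _ _) (pow_le_pow_left₀ hlog hlogN K) (by positivity)
            (by positivity)
      _ = c * Real.log M ^ K := by
          rw [mul_pow]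
          field_simp
      _ ≤ _ := h1.trans h5

end

end Pool.Agent.H86.QC
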