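import Pool.Agent.H86.QC.T
import Pool.Graph.R_pool_sql_team_seeded_3997aac3.Q122.FM.All
import Pool.Graph.R_pool_sql_team_seeded_3997aac3.Q150.TQ.AFE
import Pool.Graph.R_pool_sql_team_seeded_3997aac3.Q153.FM.Rep
import Pool.Graph.R_pool_sql_team_seeded_3997aac3.Q153.FM.Fdd

set_option autoImplicit false

/-!
# The central value as an integral of the theta series with a symmetric weight
-/

namespace Pool.Agent.H86.QC

open Finset MeasureTheory Set Filter Topology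
open Pool.Agent.H306R2.RZ Pool.Agent.H306R2.RG
open Pool.Agent.Q122.FM (kron IsFund LHalf kr2)
open Pool.Agent.H85R2.RG_CC4 (fam_facts)

noncomputable section

/-- integrability of the theta function of an even character -/
theorem th_int (φ : FD) (hφ : Fam φ) (d : ℕ) (hd : φ.A d) (hs : Squarefree d) (ha0 : φ.a = 0) :
    IntegrableOn (fun y => thg φ d y * y ^ (-(3 / 4) : ℝ)) (Set.Ioi 0) := by
  have hd0 : d ≠ 0 := hs.ne_zero
  obtain ⟨hc, C, c, hC, hc0, hb⟩ := Pool.Agent.H85R2.RG_CC4.CC4 φ hφ d hd0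
  set F : ℝ → ℝ := fun y => thg φ d y * y ^ (-(3 / 4) : ℝ) with hF
  have I1 : IntegrableOn F (Set.Ioi 1) := by
    have hex : IntegrableOn (fun w : ℝ => C * Real.exp (-(c * w))) (Set.Ioi 1) := by
      refine ((exp_neg_integrableOn_Ioi 1 hc0).const_mul C).congr (Eventually.of_forall fun w => ?_)
      simp only
      congr 2
      ring
    refine hex.mono' ?_ ?_
    · refine ContinuousOn.aestronglyMeasurable ?_ measurableSet_Ioi
      refine (hc.mono (Set.Ioi_subset_Ioi zero_le_one)).mul ?_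
      intro y hy
      exact (Real.continuousAt_rpow_const _ _ (Or.inl (lt_trans one_pos hy).ne')).continuousWithinAt
    · rw [ae_restrict_iff' measurableSet_Ioi]
      refine Eventually.of_forall fun y hy => ?_
      have hy1 : (1 : ℝ) ≤ y := le_of_lt hy
      have hy0 : (0 : ℝ) < y := by linarith
      rw [Real.norm_eq_abs, abs_mul, abs_of_nonneg (Real.rpow_nonneg hy0.le _)]
      refine le_trans (mul_le_of_le_one_right (abs_nonneg _) ?_) (hb y hy1)
      exact Real.rpow_le_one_of_one_le_of_nonpos hy1 (by norm_num)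
  have key : ∀ x ∈ Set.Ioi (0 : ℝ), (|(-1 : ℝ)| * x ^ ((-1 : ℝ) - 1)) •
      (Set.indicator (Set.Ioo (0 : ℝ) 1) F (x ^ (-1 : ℝ))) = Set.indicator (Set.Ioi (1 : ℝ)) F x := by
    intro x hx
    have hx0 : (0 : ℝ) < x := hx
    by_cases h1 : 1 < x
    · have hm : x ^ (-1 : ℝ) ∈ Set.Ioo (0 : ℝ) 1 :=
        ⟨Real.rpow_pos_of_pos hx0 _, Real.rpow_lt_one_of_one_lt_of_neg h1 (by norm_num)⟩
      rw [Set.indicator_of_mem hm, Set.indicator_of_mem (show x ∈ Set.Ioi (1 : ℝ) from h1)]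
      simp only [hF]
      have e0 : x ^ (-1 : ℝ) = 1 / x := by rw [Real.rpow_neg_one, one_div]
      have e3 : (1 / x) ^ (-(3 / 4) : ℝ) = x ^ (-(-(3 / 4)) : ℝ) := by
        rw [one_div, Real.inv_rpow hx0.le, ← Real.rpow_neg hx0.le]
      rw [e0, Pool.Agent.H306R2.RG.LnkC.CC3 φ hφ d hd hs x hx0, smul_eq_mul, e3, abs_neg, abs_one,
        one_mul, ha0]
      have : x ^ ((-1 : ℝ) - 1) * (x ^ ((1 : ℝ) / 2 + (0 : ℕ)) * thg φ d x *
          x ^ (-(-(3 / 4)) : ℝ)) =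
          thg φ d x * (x ^ ((-1 : ℝ) - 1) * x ^ ((1 : ℝ) / 2 + (0 : ℕ)) *
          x ^ (-(-(3 / 4)) : ℝ)) := by ring
      rw [this, ← Real.rpow_add hx0, ← Real.rpow_add hx0]
      congr 2
      push_cast
      ring
    · have hm : x ^ (-1 : ℝ) ∉ Set.Ioo (0 : ℝ) 1 := by
        intro h
        have h2 := h.2
        rw [Real.rpow_neg_one] at h2
        exact h1 ((inv_lt_one₀ hx0).mp h2)
      rw [Set.indicator_of_notMem hm, Set.indicator_of_notMem (show x ∉ Set.Ioi (1 : ℝ) from h1),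
        smul_zero]
  have hci := integrableOn_Ioi_comp_rpow_iff (Set.indicator (Set.Ioo (0 : ℝ) 1) F)
    (show (-1 : ℝ) ≠ 0 by norm_num)
  have s1 : Set.Ioi (0 : ℝ) ∩ Set.Ioi 1 = Set.Ioi 1 :=
    Set.inter_eq_right.mpr (Set.Ioi_subset_Ioi zero_le_one)
  have s2 : Set.Ioi (0 : ℝ) ∩ Set.Ioo 0 1 = Set.Ioo 0 1 :=
    Set.inter_eq_right.mpr fun x hx => hx.1
  have I0 : IntegrableOn F (Set.Ioo 0 1) := by
    have h1 : IntegrableOn (Set.indicator (Set.Ioo (0 : ℝ) 1) F) (Set.Ioi 0) := by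
      rw [← hci, integrableOn_congr_fun key measurableSet_Ioi]
      unfold IntegrableOn
      rw [integrable_indicator_iff measurableSet_Ioi]
      unfold IntegrableOn
      rw [Measure.restrict_restrict measurableSet_Ioi, Set.inter_comm, s1]
      exact I1
    unfold IntegrableOn at h1
    rw [integrable_indicator_iff measurableSet_Ioo] at h1
    unfold IntegrableOn at h1
    rw [Measure.restrict_restrict measurableSet_Ioo, Set.inter_comm, s2] at h1
    exact h1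
  have hu : Set.Ioi (0 : ℝ) = Set.Ioc 0 1 ∪ Set.Ioi 1 := (Set.Ioc_union_Ioi_eq_Ioi zero_le_one).symm
  have I0' : IntegrableOn F (Set.Ioc 0 1) := by
    rw [integrableOn_Ioc_iff_integrableOn_Ioo]
    exact I0
  rw [hu]
  exact I0'.union I1

/-- the reflection -/
theorem th_refl (φ : FD) (hφ : Fam φ) (d : ℕ) (hd : φ.A d) (hs : Squarefree d) (ha0 : φ.a = 0)
    (f : ℝ → ℝ) :
    ∫ y in Set.Ioi (0 : ℝ), thg φ d y * y ^ (-(3 / 4) : ℝ) * f y =
      ∫ y in Set.Ioi (0 : ℝ), thg φ d y * y ^ (-(3 / 4) : ℝ) * f (1 / y) := by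
  have hcv := integral_comp_rpow_Ioi (fun y => thg φ d y * y ^ (-(3 / 4) : ℝ) * f y)
    (show (-1 : ℝ) ≠ 0 by norm_num)
  rw [← hcv]
  refine setIntegral_congr_fun measurableSet_Ioi fun x hx => ?_
  have hx0 : (0 : ℝ) < x := hx
  have e0 : x ^ (-1 : ℝ) = 1 / x := by rw [Real.rpow_neg_one, one_div]
  have e3 : (1 / x) ^ (-(3 / 4) : ℝ) = x ^ (-(-(3 / 4)) : ℝ) := by
    rw [one_div, Real.inv_rpow hx0.le, ← Real.rpow_neg hx0.le]
  rw [e0, Pool.Agent.H306R2.RG.LnkC.CC3 φ hφ d hd hs x hx0, smul_eq_mul, e3, abs_neg, abs_one,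
    one_mul, ha0]
  have : x ^ ((-1 : ℝ) - 1) * (x ^ ((1 : ℝ) / 2 + (0 : ℕ)) * thg φ d x *
      x ^ (-(-(3 / 4)) : ℝ) * f (1 / x)) =
      thg φ d x * (x ^ ((-1 : ℝ) - 1) * x ^ ((1 : ℝ) / 2 + (0 : ℕ)) *
      x ^ (-(-(3 / 4)) : ℝ)) * f (1 / x) := by ring
  rw [this, ← Real.rpow_add hx0, ← Real.rpow_add hx0]
  congr 3
  push_cast
  ring

/-- **The central value**, with the conductor in one half of the weight -/
theorem rep {q : ℕ} (hq : 2 ≤ q) (h4 : (q : ℤ) % 4 = 1) (hs : Squarefree q) {X : ℝ} (hX : 0 < X) :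
    LHalf (q : ℤ) * gm (1 / 2) = LL X q (fun n => (kron (q : ℤ) n : ℝ)) := by
  have hf : IsFund ((1 : ℤ) * (q : ℤ)) := by
    rw [one_mul]
    refine Or.inl ⟨h4, ?_⟩
    rw [← Int.squarefree_natAbs, Int.natAbs_natCast]
    exact hs
  obtain ⟨φ, d, hF, hA, hsq, hrd, hpar, hL, hη, hjs⟩ :=
    Pool.Agent.Q150.TQ.family 1 (Or.inl rfl) q hq hf Pool.Agent.Q122.FM.fdd
  rw [one_mul] at hL hη
  have ha0 : φ.a = 0 := by
    rw [hpar]
    rfl
  have hq0 : (0 : ℝ) < q := by exact_mod_cast (by omega : 0 < q)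
  have hrdR : (φ.r : ℝ) * d = q := by exact_mod_cast hrd
  -- the coefficients
  have hcf : ∀ k : ℕ, 1 ≤ k → ((kron (q : ℤ) k : ℤ) : ℝ) = cf φ d k := by
    intro k hk
    refine Pool.Agent.Q153.FM.Fdd.kron_cf φ d (q : ℤ) hη.symm (fun o ho => ?_) k hk
    have := hjs o ho
    rw [one_mul] at this
    unfold js at this
    exact_mod_cast this.symm
  have hth : ∀ u : ℝ, thg φ d (q * u) = Th (fun n => (kron (q : ℤ) n : ℝ)) u := by
    intro u
    unfold thg Th eT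
    refine tsum_congr fun n => ?_
    rw [← hcf (n + 1) (by omega), ha0, pow_zero, mul_one, hrdR]
    congr 2
    field_simp
  -- `LLg`
  have hgm : gm (1 / 2) ≠ 0 := by
    unfold gm
    have h1 : 0 < Real.Gamma (1 / 2 / 2) := Real.Gamma_pos_of_pos (by norm_num)
    have h2 : 0 < Real.pi ^ (-((1 : ℝ) / 2 / 2)) := Real.rpow_pos_of_pos Real.pi_pos _
    positivity
  have h1 : LHalf (q : ℤ) * gm (1 / 2) = (q : ℝ) ^ (-(1 / 4) : ℝ) *
      ∫ y in Set.Ioi (0 : ℝ), thg φ d y * y ^ (-(3 / 4) : ℝ) := by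
    rw [hL]
    unfold LLg
    rw [ha0, hrdR]
    have e1 : ((1 : ℝ) / 2 + (0 : ℕ)) / 2 - 1 = -(3 / 4) := by push_cast; norm_num
    have e2 : ((1 : ℝ) / 2 + (0 : ℕ)) / 2 = 1 / 4 := by push_cast; norm_num
    have e3 : ((1 : ℝ) / 2 + (0 : ℕ)) = 1 / 2 := by push_cast; norm_num
    rw [e1, e2, e3]
    have e4 : (q : ℝ) ^ (-(1 / 4) : ℝ) = ((q : ℝ) ^ (1 / 4 : ℝ))⁻¹ := Real.rpow_neg hq0.le _
    have e5 : (q : ℝ) ^ (1 / 4 : ℝ) ≠ 0 := (Real.rpow_pos_of_pos hq0 _).ne'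
    rw [e4]
    field_simp
  -- the two parts
  set f : ℝ → ℝ := fun y => 1 / (1 + X ^ 2 * y / q) with hfdef
  have hI := th_int φ hF d hA hsq ha0
  have hf1 : ∀ y ∈ Set.Ioi (0 : ℝ), 0 ≤ f y ∧ f y ≤ 1 := by
    intro y hy
    have hy0 : (0 : ℝ) < y := hy
    simp only [hfdef]
    constructor
    · positivity
    · rw [div_le_one (by positivity)]
      have : 0 ≤ X ^ 2 * y / q := by positivity
      linarith
  have hfc : ContinuousOn f (Set.Ioi 0) := by
    simp only [hfdef]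
    refine ContinuousOn.div (by fun_prop) (by fun_prop) fun y hy => ?_
    have : (0 : ℝ) < y := hy
    positivity
  have hI2 : IntegrableOn (fun y => thg φ d y * y ^ (-(3 / 4) : ℝ) * f y) (Set.Ioi 0) := by
    refine hI.norm.mono' ?_ ?_
    · exact hI.aestronglyMeasurable.mul (hfc.aestronglyMeasurable measurableSet_Ioi)
    · rw [ae_restrict_iff' measurableSet_Ioi]
      refine Eventually.of_forall fun y hy => ?_
      obtain ⟨k1, k2⟩ := hf1 y hy
      rw [norm_mul, Real.norm_eq_abs (f y), abs_of_nonneg k1]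
      exact mul_le_of_le_one_right (norm_nonneg _) k2
  have hfc' : ContinuousOn (fun y : ℝ => f (1 / y)) (Set.Ioi 0) := by
    refine hfc.comp (ContinuousOn.div continuousOn_const continuousOn_id fun y hy => ne_of_gt hy) ?_
    intro y hy
    have : (0 : ℝ) < y := hy
    exact one_div_pos.2 this
  have hI3 : IntegrableOn (fun y => thg φ d y * y ^ (-(3 / 4) : ℝ) * f (1 / y)) (Set.Ioi 0) := by
    refine hI.norm.mono' ?_ ?_
    · exact hI.aestronglyMeasurable.mul (hfc'.aestronglyMeasurable measurableSet_Ioi)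
    · rw [ae_restrict_iff' measurableSet_Ioi]
      refine Eventually.of_forall fun y hy => ?_
      have hy0 : (0 : ℝ) < y := hy
      obtain ⟨k1, k2⟩ := hf1 (1 / y) (one_div_pos.2 hy0)
      rw [norm_mul, Real.norm_eq_abs (f (1 / y)), abs_of_nonneg k1]
      exact mul_le_of_le_one_right (norm_nonneg _) k2
  have h2 : ∫ y in Set.Ioi (0 : ℝ), thg φ d y * y ^ (-(3 / 4) : ℝ) =
      ∫ y in Set.Ioi (0 : ℝ), thg φ d y * y ^ (-(3 / 4) : ℝ) * Wf X q (y / q) := by
    have k1 : ∫ y in Set.Ioi (0 : ℝ), thg φ d y * y ^ (-(3 / 4) : ℝ) * Wf X q (y / q) =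
        (∫ y in Set.Ioi (0 : ℝ), thg φ d y * y ^ (-(3 / 4) : ℝ)) -
          (∫ y in Set.Ioi (0 : ℝ), thg φ d y * y ^ (-(3 / 4) : ℝ) * f y) +
          ∫ y in Set.Ioi (0 : ℝ), thg φ d y * y ^ (-(3 / 4) : ℝ) * f (1 / y) := by
      have hI4 : IntegrableOn (fun y => thg φ d y * y ^ (-(3 / 4) : ℝ) -
        thg φ d y * y ^ (-(3 / 4) : ℝ) * f y) (Set.Ioi 0) := hI.sub hI2
      rw [← integral_sub hI hI2, ← integral_add hI4 hI3]
      refine setIntegral_congr_fun measurableSet_Ioi fun y hy => ?_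
      have hy0 : (0 : ℝ) < y := hy
      simp only [hfdef]
      have e : Wf X q (y / q) = 1 - 1 / (1 + X ^ 2 * y / q) + 1 / (1 + X ^ 2 * (1 / y) / q) := by
        unfold Wf
        have p1 : (0 : ℝ) < 1 + X ^ 2 * y / q := by positivity
        have p2 : (0 : ℝ) < 1 + X ^ 2 * (1 / y) / q := by positivity
        have e1 : X ^ 2 * (y / q) / (1 + X ^ 2 * (y / q)) = 1 - 1 / (1 + X ^ 2 * y / q) := by
          rw [← mul_div_assoc]
          field_simp
          ring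
        have e2 : (q : ℝ) ^ 2 * (y / q) / (X ^ 2 + (q : ℝ) ^ 2 * (y / q)) =
            1 / (1 + X ^ 2 * (1 / y) / q) := by
          have p3 : (0 : ℝ) < q * y + X ^ 2 := by positivity
          field_simp
          ring
        rw [e1, e2]
      rw [e]
      ring
    rw [k1, th_refl φ hF d hA hsq ha0 f]
    ring
  rw [h1, h2]
  -- scaling
  have h3 := integral_comp_mul_left_Ioi (fun y => thg φ d y * y ^ (-(3 / 4) : ℝ) * Wf X q (y / q)) 0 hq0
  rw [mul_zero, smul_eq_mul] at h3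
  have h4 : ∫ y in Set.Ioi (0 : ℝ), thg φ d y * y ^ (-(3 / 4) : ℝ) * Wf X q (y / q) =
      q * ∫ u in Set.Ioi (0 : ℝ), thg φ d (q * u) * ((q : ℝ) * u) ^ (-(3 / 4) : ℝ) * Wf X q (q * u / q) := by
    rw [h3, ← mul_assoc, mul_inv_cancel₀ hq0.ne', one_mul]
  rw [h4]
  have h5 : ∫ u in Set.Ioi (0 : ℝ), thg φ d (q * u) * ((q : ℝ) * u) ^ (-(3 / 4) : ℝ) * Wf X q (q * u / q) =
      (q : ℝ) ^ (-(3 / 4) : ℝ) * LL X q (fun n => (kron (q : ℤ) n : ℝ)) := by
    unfold LL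
    rw [← integral_const_mul]
    refine setIntegral_congr_fun measurableSet_Ioi fun u hu => ?_
    have hu0 : (0 : ℝ) < u := hu
    rw [hth u, Real.mul_rpow hq0.le hu0.le, mul_div_cancel_left₀ u hq0.ne']
    ring
  rw [h5, ← mul_assoc, ← mul_assoc]
  have h6 : (q : ℝ) ^ (-(1 / 4) : ℝ) * q * (q : ℝ) ^ (-(3 / 4) : ℝ) = 1 := by
    rw [← Real.rpow_add_one hq0.ne', ← Real.rpow_add hq0]
    norm_num
  rw [h6, one_mul]

end

end Pool.Agent.H86.QC
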