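import Pool.Agent.H86.QC.I
import Pool.Agent.H86.QC.R
import Pool.Agent.H86.QC.N
import Pool.Graph.R_pool_sql_team_seeded_3997aac3.Q148.TQ.KRM

set_option autoImplicit false

/-!
# Products of discriminants from arbitrary sets
-/

namespace Pool.Agent.H86.QC

open Finset Filter Topology
open Pool.Agent.Q122.FM (kron IsFund LHalf kr2)
open Pool.Agent.H306R2.RZ (gm)
open Pool.Agent.Q255.TQ (Tu)

noncomputable section

/-! ### arithmetic -/

/-- the character -/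
def xk (D : ℤ) (n : ℕ) : ℝ := (kron D n : ℝ)

theorem xk_abs (D : ℤ) (n : ℕ) : |xk D n| ≤ 1 := by
  unfold xk
  have h := (Pool.Agent.Q148.TQ.t_KRM D).2.2.1 n
  exact_mod_cast h

theorem xk_mul (D : ℤ) (m n : ℕ) (hm : 1 ≤ m) (hn : 1 ≤ n) : xk D (m * n) = xk D m * xk D n := by
  unfold xk
  rw [(Pool.Agent.Q148.TQ.t_KRM D).1 m n hm hn]
  push_cast
  ring

theorem xk_one (D : ℤ) : xk D 1 = 1 := by
  unfold xk
  rw [(Pool.Agent.Q148.TQ.t_KRM D).2.1]
  norm_num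

theorem xk_prod (D : ℤ) {j : ℕ} (t : Fin j → ℕ) (ht : ∀ i, 1 ≤ t i) :
    xk D (∏ i, t i) = ∏ i, xk D (t i) := by
  have h : ∀ s : Finset (Fin j), xk D (∏ i ∈ s, t i) = ∏ i ∈ s, xk D (t i) := by
    classical
    intro s
    induction s using Finset.induction_on with
    | empty => rw [prod_empty, prod_empty, xk_one]
    | insert a s ha ih =>
      rw [prod_insert ha, prod_insert ha, xk_mul D _ _ (ht a)
        (Nat.one_le_iff_ne_zero.2 (prod_ne_zero_iff.2 fun i _ => by have := ht i; omega)), ih]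
  exact h univ

theorem xk_sq (D : ℤ) (hD : IsFund D) (r : ℕ) (hr : 1 ≤ r) :
    xk D (r ^ 2) = if D.natAbs.Coprime r then 1 else 0 := by
  unfold xk
  rw [(Pool.Agent.Q148.TQ.t_KRM D).2.2.2 hD r hr]
  split_ifs <;> simp

theorem kron_DD {D E : ℤ} (hD : D % 4 = 1) (hE : E % 4 = 1) (n : ℕ) :
    kron (D * E) n = kron D n * kron E n := by
  have h2 : kr2 (D * E) = kr2 D * kr2 E := by
    have h1 : D % 8 = 1 ∨ D % 8 = 5 := by omega
    have h3 : E % 8 = 1 ∨ E % 8 = 5 := by omega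
    unfold kr2
    rw [Int.mul_emod]
    rcases h1 with h1 | h1 <;> rcases h3 with h3 | h3 <;> rw [h1, h3] <;> norm_num
  unfold kron
  rw [h2, mul_pow, jacobiSym.mul_left]
  ring

/-- an admissible set: odd fundamental discriminants of one sign, in pairs coprime -/
structure Adm (S : Finset ℤ) (X R : ℝ) : Prop where
  mod : ∀ D ∈ S, D % 4 = 1
  sqf : ∀ D ∈ S, Squarefree D
  lo : ∀ D ∈ S, X ≤ |(D : ℝ)|
  hi : ∀ D ∈ S, |(D : ℝ)| ≤ R * X
  sgn : (∀ D ∈ S, 0 < D) ∨ (∀ D ∈ S, D < 0)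
  cop : ∀ D ∈ S, ∀ E ∈ S, D ≠ E → IsCoprime D E

theorem prod_facts {D E : ℤ} (hD : D % 4 = 1) (hE : E % 4 = 1) (sD : Squarefree D) (sE : Squarefree E)
    (hs : 0 < D * E) (hDE : D ≠ E) (hc : IsCoprime D E) :
    D * E = ((D.natAbs * E.natAbs : ℕ) : ℤ) ∧ 2 ≤ D.natAbs * E.natAbs ∧
      ((D.natAbs * E.natAbs : ℕ) : ℤ) % 4 = 1 ∧ Squarefree (D.natAbs * E.natAbs) := by
  have e : D * E = ((D.natAbs * E.natAbs : ℕ) : ℤ) := by
    rw [← Int.natAbs_mul, Int.natCast_natAbs, abs_of_pos hs]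
  have h4 : (D * E) % 4 = 1 := by
    rw [Int.mul_emod, hD, hE]
    norm_num
  have hsq : Squarefree (D.natAbs * E.natAbs) := by
    rw [← Int.natAbs_mul, Int.squarefree_natAbs]
    rw [squarefree_mul_iff]
    exact ⟨hc.isRelPrime, sD, sE⟩
  refine ⟨e, ?_, by rw [← e]; exact h4, hsq⟩
  by_contra h
  have hDne : D ≠ 0 := by rintro rfl; simp at hs
  have hEne : E ≠ 0 := by rintro rfl; simp at hs
  have h1 := Int.natAbs_pos.2 hDne
  have h2 := Int.natAbs_pos.2 hEne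
  have h3 : D.natAbs = 1 ∧ E.natAbs = 1 := by
    constructor <;> nlinarith
  apply hDE
  have h5 : D = 1 := by omega
  have h6 : E = 1 := by omega
  rw [h5, h6]

theorem natAbs_cast_abs (D : ℤ) : ((D.natAbs : ℕ) : ℝ) = |(D : ℝ)| := by
  rw [← Int.cast_abs, ← Int.natCast_natAbs, Int.cast_natCast]

/-- off the diagonal the smoothed series is the central value -/
theorem LL_eq {D E : ℤ} (hD : D % 4 = 1) (hE : E % 4 = 1) (sD : Squarefree D) (sE : Squarefree E)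
    (hs : 0 < D * E) (hDE : D ≠ E) (hc : IsCoprime D E) {X : ℝ} (hX : 0 < X) :
    LL X (|(D : ℝ)| * |(E : ℝ)|) (fun n => xk D n * xk E n) = LHalf (D * E) * gm (1 / 2) := by
  obtain ⟨e, h2, h4, hsq⟩ := prod_facts hD hE sD sE hs hDE hc
  have h := rep h2 h4 hsq hX
  rw [← e] at h
  rw [h]
  congr 1
  · push_cast
    rw [natAbs_cast_abs, natAbs_cast_abs]
  · funext n
    unfold xk
    rw [kron_DD hD hE]
    push_cast
    ring

/-! ### the polynomial -/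

/-- `∑_{n ≤ K} b(n) x_D(n) x_E(n) / √n` -/
def BB (K : ℕ) (D E : ℤ) : ℝ := ∑ n ∈ Icc 1 K, bb n / Real.sqrt n * (xk D n * xk E n)

/-- the weight of a tuple -/
def bt {j : ℕ} (t : Fin j → ℕ) : ℝ := ∏ i, bb (t i) / Real.sqrt (t i)

theorem bt_nonneg {j : ℕ} (t : Fin j → ℕ) : 0 ≤ bt t :=
  prod_nonneg fun i _ => div_nonneg (bb_nonneg _) (Real.sqrt_nonneg _)

theorem Tu_pos {j K : ℕ} {t : Fin j → ℕ} (ht : t ∈ Tu j K) (i : Fin j) : 1 ≤ t i :=
  (mem_Icc.1 (Fintype.mem_piFinset.1 ht i)).1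

theorem Tu_le {j K : ℕ} {t : Fin j → ℕ} (ht : t ∈ Tu j K) (i : Fin j) : t i ≤ K :=
  (mem_Icc.1 (Fintype.mem_piFinset.1 ht i)).2

theorem Tu_prod_pos {j K : ℕ} {t : Fin j → ℕ} (ht : t ∈ Tu j K) : 1 ≤ ∏ i, t i :=
  Nat.one_le_iff_ne_zero.2 (prod_ne_zero_iff.2 fun i _ => by have := Tu_pos ht i; omega)

/-- powers of the polynomial -/
theorem BB_pow (K j : ℕ) (D E : ℤ) :
    BB K D E ^ j = ∑ t ∈ Tu j K, bt t * (xk D (∏ i, t i) * xk E (∏ i, t i)) := by
  have h1 : BB K D E ^ j = ∏ _i : Fin j, ∑ n ∈ Icc 1 K, bb n / Real.sqrt n * (xk D n * xk E n) := by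
    rw [prod_const, card_univ, Fintype.card_fin]
    rfl
  rw [h1, prod_univ_sum]
  refine sum_congr rfl fun t ht => ?_
  rw [xk_prod D t (Tu_pos ht), xk_prod E t (Tu_pos ht), prod_mul_distrib, prod_mul_distrib]
  rfl

theorem BB_abs (K : ℕ) (D E : ℤ) : |BB K D E| ≤ 2 * Real.sqrt K := by
  have hbb : ∀ n : ℕ, 1 ≤ n → bb n ≤ 1 := by
    intro n _
    refine prod_le_one (fun _ _ => bet_nonneg _) fun p _ => ?_
    unfold bet
    split_ifs <;> norm_num
  have h1 : |BB K D E| ≤ ∑ n ∈ Icc 1 K, 1 / Real.sqrt n := by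
    refine (abs_sum_le_sum_abs _ _).trans (sum_le_sum fun n hn => ?_)
    rw [mem_Icc] at hn
    rw [abs_mul, abs_mul, abs_of_nonneg (div_nonneg (bb_nonneg n) (Real.sqrt_nonneg _))]
    have h2 : |xk D n| * |xk E n| ≤ 1 := mul_le_one₀ (xk_abs D n) (abs_nonneg _) (xk_abs E n)
    have h3 : bb n / Real.sqrt n ≤ 1 / Real.sqrt n :=
      div_le_div_of_nonneg_right (hbb n hn.1) (Real.sqrt_nonneg _)
    have h4 : 0 ≤ bb n / Real.sqrt n := div_nonneg (bb_nonneg n) (Real.sqrt_nonneg _)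
    nlinarith
  refine h1.trans ?_
  induction K with
  | zero => simp
  | succ k ih =>
    have h2 : ∑ n ∈ Icc 1 k, 1 / Real.sqrt n ≤ 2 * Real.sqrt k := by
      clear ih h1
      induction k with
      | zero => simp
      | succ l ihl =>
        rw [sum_Icc_succ_top (by omega)]
        have := step l
        linarith
    rw [sum_Icc_succ_top (by omega)]
    have := step k
    linarith
where
  step (k : ℕ) : 2 * Real.sqrt k + 1 / Real.sqrt ((k + 1 : ℕ) : ℝ) ≤ 2 * Real.sqrt ((k + 1 : ℕ) : ℝ) := by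
    have hk0 : (0 : ℝ) ≤ k := Nat.cast_nonneg k
    have h1 : 0 < Real.sqrt ((k + 1 : ℕ) : ℝ) := Real.sqrt_pos.2 (by push_cast; linarith)
    have h2 : Real.sqrt ((k + 1 : ℕ) : ℝ) ^ 2 = k + 1 := by
      rw [Real.sq_sqrt (by positivity)]
      push_cast
      rfl
    have h3 : Real.sqrt (k : ℝ) ^ 2 = k := Real.sq_sqrt hk0
    have h4 := Real.sqrt_nonneg (k : ℝ)
    have h5 : 1 / Real.sqrt ((k + 1 : ℕ) : ℝ) * Real.sqrt ((k + 1 : ℕ) : ℝ) = 1 := by
      field_simp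
    by_contra hcon
    push Not at hcon
    have h6 := mul_lt_mul_of_pos_right hcon h1
    have h7 : (2 * Real.sqrt k + 1 / Real.sqrt ((k + 1 : ℕ) : ℝ)) * Real.sqrt ((k + 1 : ℕ) : ℝ) =
        2 * Real.sqrt k * Real.sqrt ((k + 1 : ℕ) : ℝ) + 1 := by
      rw [add_mul, h5]
    rw [h7] at h6
    nlinarith [sq_nonneg (Real.sqrt ((k + 1 : ℕ) : ℝ) - Real.sqrt (k : ℝ))]

end

end Pool.Agent.H86.QC
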