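import Mathlib

set_option autoImplicit false

/-!
# Theta series with bounded coefficients
-/

namespace Pool.Agent.H86.QC

open Finset MeasureTheory Set Filter Topology

noncomputable section

/-- the terms of the theta series -/
def eT (n : ℕ) (u : ℝ) : ℝ := Real.exp (-(Real.pi * ((n : ℝ) + 1) ^ 2 * u))

/-- `∑ x(n) exp(-π n² u)` -/
def Th (x : ℕ → ℝ) (u : ℝ) : ℝ := ∑' n : ℕ, x (n + 1) * eT n u

theorem eT_pos (n : ℕ) (u : ℝ) : 0 < eT n u := Real.exp_pos _

/-- the terms are bounded by a geometric progression -/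
theorem eT_le (n : ℕ) {u : ℝ} (hu : 0 < u) :
    eT n u ≤ Real.exp 2 * Real.exp (-u) * Real.exp (-(4 * Real.sqrt u)) ^ (n + 1) := by
  unfold eT
  rw [← Real.exp_nat_mul, ← Real.exp_add, ← Real.exp_add]
  apply Real.exp_le_exp.2
  have hs : Real.sqrt u ^ 2 = u := Real.sq_sqrt hu.le
  have hpi : 3 ≤ Real.pi := Real.pi_gt_three.le
  push_cast
  set N : ℝ := (n : ℝ) + 1 with hN
  have hN1 : 1 ≤ N := by
    rw [hN]
    have : (0 : ℝ) ≤ n := Nat.cast_nonneg n
    linarith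
  have h1 : 3 * N ^ 2 * u ≤ Real.pi * N ^ 2 * u := by
    have : 0 ≤ N ^ 2 * u := by positivity
    nlinarith
  have h2 : 1 * u ≤ N ^ 2 * u := mul_le_mul_of_nonneg_right (by nlinarith) hu.le
  have h3 : 0 ≤ 2 * (N * Real.sqrt u - 1) ^ 2 := by positivity
  have h4 : 2 * (N * Real.sqrt u - 1) ^ 2 = 2 * N ^ 2 * Real.sqrt u ^ 2 - 4 * N * Real.sqrt u + 2 := by ring
  rw [h4, hs] at h3
  nlinarith

theorem r_lt {u : ℝ} (hu : 0 < u) : Real.exp (-(4 * Real.sqrt u)) < 1 := by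
  rw [Real.exp_lt_one_iff]
  have := Real.sqrt_pos.2 hu
  linarith

theorem eT_summable {u : ℝ} (hu : 0 < u) : Summable fun n : ℕ => eT n u := by
  refine Summable.of_nonneg_of_le (fun n => (eT_pos n u).le) (fun n => eT_le n hu) ?_
  refine Summable.mul_left _ ?_
  exact (summable_nat_add_iff 1).2 (summable_geometric_of_lt_one (Real.exp_pos _).le (r_lt hu))

theorem summ {x : ℕ → ℝ} (hx : ∀ n, |x n| ≤ 1) {u : ℝ} (hu : 0 < u) :
    Summable fun n : ℕ => x (n + 1) * eT n u := by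
  refine Summable.of_norm_bounded (eT_summable hu) fun n => ?_
  rw [norm_mul, Real.norm_eq_abs, Real.norm_eq_abs, abs_of_pos (eT_pos n u)]
  exact mul_le_of_le_one_left (eT_pos n u).le (hx _)

/-- the size of the theta series -/
theorem eT_tsum {u : ℝ} (hu : 0 < u) : ∑' n : ℕ, eT n u ≤ 2 * Real.exp (-u) * u ^ (-(1 / 2) : ℝ) := by
  have hsq := Real.sqrt_pos.2 hu
  have hr0 : 0 < Real.exp (-(4 * Real.sqrt u)) := Real.exp_pos _
  have hr := r_lt hu
  have h1 : ∑' n : ℕ, eT n u ≤ ∑' n : ℕ, Real.exp 2 * Real.exp (-u) *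
      Real.exp (-(4 * Real.sqrt u)) ^ (n + 1) := by
    refine (eT_summable hu).tsum_le_tsum (fun n => eT_le n hu) ?_
    exact Summable.mul_left _ ((summable_nat_add_iff 1).2 (summable_geometric_of_lt_one hr0.le hr))
  refine h1.trans ?_
  rw [tsum_mul_left]
  have h2 : ∑' n : ℕ, Real.exp (-(4 * Real.sqrt u)) ^ (n + 1) ≤ 1 / (4 * Real.sqrt u) := by
    simp only [pow_succ]
    rw [tsum_mul_right, tsum_geometric_of_lt_one hr0.le hr]
    rw [inv_mul_eq_div, div_le_div_iff₀ (by linarith) (by positivity), one_mul]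
    have h3 := Real.add_one_le_exp (4 * Real.sqrt u)
    have h4 : Real.exp (-(4 * Real.sqrt u)) * Real.exp (4 * Real.sqrt u) = 1 := by
      rw [← Real.exp_add]; simp
    nlinarith
  have h3 : Real.exp 2 ≤ 8 := by
    have h := Real.exp_one_lt_d9
    have : Real.exp 2 = Real.exp 1 * Real.exp 1 := by rw [← Real.exp_add]; norm_num
    have h0 := Real.exp_pos 1
    rw [this]
    nlinarith
  have h4 : u ^ (-(1 / 2) : ℝ) = 1 / Real.sqrt u := by
    rw [Real.rpow_neg hu.le, ← Real.sqrt_eq_rpow, one_div]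
  rw [h4]
  have h5 : 0 < Real.exp (-u) := Real.exp_pos _
  calc Real.exp 2 * Real.exp (-u) * ∑' n : ℕ, Real.exp (-(4 * Real.sqrt u)) ^ (n + 1)
      ≤ 8 * Real.exp (-u) * (1 / (4 * Real.sqrt u)) := by
        apply mul_le_mul _ h2 (tsum_nonneg fun n => by positivity) (by positivity)
        exact mul_le_mul_of_nonneg_right h3 h5.le
    _ = 2 * Real.exp (-u) * (1 / Real.sqrt u) := by
        field_simp
        norm_num

theorem Th_le {x : ℕ → ℝ} (hx : ∀ n, |x n| ≤ 1) {u : ℝ} (hu : 0 < u) :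
    |Th x u| ≤ 2 * Real.exp (-u) * u ^ (-(1 / 2) : ℝ) := by
  refine le_trans ?_ (eT_tsum hu)
  unfold Th
  have h := norm_tsum_le_tsum_norm (f := fun n : ℕ => x (n + 1) * eT n u) (summ hx hu).norm
  rw [Real.norm_eq_abs] at h
  refine h.trans ?_
  refine (summ hx hu).norm.tsum_le_tsum (fun n => ?_) (eT_summable hu)
  rw [norm_mul, Real.norm_eq_abs, Real.norm_eq_abs, abs_of_pos (eT_pos n u)]
  exact mul_le_of_le_one_left (eT_pos n u).le (hx _)

theorem Th_cont {x : ℕ → ℝ} (hx : ∀ n, |x n| ≤ 1) : ContinuousOn (Th x) (Ioi 0) := by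
  intro y hy
  have hy' : (0 : ℝ) < y := hy
  have hcont : ContinuousOn (Th x) (Ioi (y / 2)) := by
    unfold Th
    refine continuousOn_tsum (u := fun n : ℕ => eT n (y / 2)) (fun n => ?_)
      (eT_summable (by linarith)) ?_
    · unfold eT
      fun_prop
    · intro n z hz
      have hz' : y / 2 ≤ z := le_of_lt hz
      rw [norm_mul, Real.norm_eq_abs, Real.norm_eq_abs, abs_of_pos (eT_pos n z)]
      refine (mul_le_of_le_one_left (eT_pos n z).le (hx _)).trans ?_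
      unfold eT
      apply Real.exp_le_exp.2
      have : 0 ≤ Real.pi * ((n : ℝ) + 1) ^ 2 := by positivity
      nlinarith
  exact (hcont.continuousAt (Ioi_mem_nhds (by linarith))).continuousWithinAt

/-- the weight of the approximate functional equation -/
def Wf (X q u : ℝ) : ℝ := X ^ 2 * u / (1 + X ^ 2 * u) + q ^ 2 * u / (X ^ 2 + q ^ 2 * u)

/-- the smoothed series -/
def LL (X q : ℝ) (x : ℕ → ℝ) : ℝ := ∫ u in Ioi (0 : ℝ), Th x u * u ^ (-(3 / 4) : ℝ) * Wf X q u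

theorem Wf_cont {X q : ℝ} (hX : 0 < X) : ContinuousOn (Wf X q) (Ioi 0) := by
  unfold Wf
  refine ContinuousOn.add ?_ ?_
  · refine ContinuousOn.div (by fun_prop) (by fun_prop) fun u hu => ?_
    have : 0 < u := hu
    positivity
  · refine ContinuousOn.div (by fun_prop) (by fun_prop) fun u hu => ?_
    have : 0 < u := hu
    positivity

theorem Wf_nonneg {X q u : ℝ} (hX : 0 < X) (hu : 0 < u) : 0 ≤ Wf X q u := by
  unfold Wf
  positivity

theorem Wf_le {X q u : ℝ} (hX : 0 < X) (hu : 0 < u) : Wf X q u ≤ (X ^ 2 + q ^ 2 / X ^ 2) * u := by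
  unfold Wf
  have h1 : X ^ 2 * u / (1 + X ^ 2 * u) ≤ X ^ 2 * u := by
    apply div_le_self (by positivity)
    have : 0 ≤ X ^ 2 * u := by positivity
    linarith
  have h2 : q ^ 2 * u / (X ^ 2 + q ^ 2 * u) ≤ q ^ 2 * u / X ^ 2 := by
    apply div_le_div_of_nonneg_left (by positivity) (by positivity)
    have : 0 ≤ q ^ 2 * u := by positivity
    linarith
  calc _ ≤ X ^ 2 * u + q ^ 2 * u / X ^ 2 := add_le_add h1 h2
    _ = _ := by ring

/-- integrability -/
theorem LL_int {X q : ℝ} (hX : 0 < X) {x : ℕ → ℝ} (hx : ∀ n, |x n| ≤ 1) :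
    IntegrableOn (fun u : ℝ => Th x u * u ^ (-(3 / 4) : ℝ) * Wf X q u) (Ioi 0) := by
  have hG := (Real.GammaIntegral_convergent (s := 3 / 4) (by norm_num)).const_mul
    (2 * (X ^ 2 + q ^ 2 / X ^ 2))
  refine hG.mono' ?_ ?_
  · refine ContinuousOn.aestronglyMeasurable ?_ measurableSet_Ioi
    refine ((Th_cont hx).mul ?_).mul (Wf_cont hX)
    intro y hy
    exact (Real.continuousAt_rpow_const _ _ (Or.inl (ne_of_gt hy))).continuousWithinAt
  · rw [ae_restrict_iff' measurableSet_Ioi]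
    refine Eventually.of_forall fun u hu => ?_
    have hu0 : (0 : ℝ) < u := hu
    rw [Real.norm_eq_abs, abs_mul, abs_mul, abs_of_nonneg (Wf_nonneg hX hu0),
      abs_of_nonneg (Real.rpow_nonneg hu0.le _)]
    have h1 := Th_le hx hu0
    have h2 := Wf_le (q := q) hX hu0
    calc |Th x u| * u ^ (-(3 / 4) : ℝ) * Wf X q u ≤
        (2 * Real.exp (-u) * u ^ (-(1 / 2) : ℝ)) * u ^ (-(3 / 4) : ℝ) *
          ((X ^ 2 + q ^ 2 / X ^ 2) * u) := by
          apply mul_le_mul _ h2 (Wf_nonneg hX hu0) (by positivity)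
          exact mul_le_mul_of_nonneg_right h1 (Real.rpow_nonneg hu0.le _)
      _ = 2 * (X ^ 2 + q ^ 2 / X ^ 2) * (Real.exp (-u) *
          (u ^ (-(1 / 2) : ℝ) * u ^ (-(3 / 4) : ℝ) * u ^ (1 : ℝ))) := by
          rw [Real.rpow_one]
          ring
      _ = _ := by
          rw [← Real.rpow_add hu0, ← Real.rpow_add hu0]
          norm_num

/-! ### the constants -/

/-- the weight `v / (1 + v)` -/
theorem w_mono {a b : ℝ} (ha : 0 ≤ a) (hab : a ≤ b) : a / (1 + a) ≤ b / (1 + b) := by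
  rw [div_le_div_iff₀ (by linarith) (by linarith)]
  nlinarith

/-- `∫ v^{-5/4} v/(1+v)` -/
def I0 : ℝ := ∫ v in Ioi (0 : ℝ), v ^ (-(5 / 4) : ℝ) * (v / (1 + v))

theorem I0_int : IntegrableOn (fun v : ℝ => v ^ (-(5 / 4) : ℝ) * (v / (1 + v))) (Ioi 0) := by
  have hc : ContinuousOn (fun v : ℝ => v ^ (-(5 / 4) : ℝ) * (v / (1 + v))) (Ioi 0) := by
    refine ContinuousOn.mul ?_ ?_
    · intro y hy
      exact (Real.continuousAt_rpow_const _ _ (Or.inl (ne_of_gt hy))).continuousWithinAt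
    · refine ContinuousOn.div (by fun_prop) (by fun_prop) fun u hu => ?_
      have : 0 < u := hu
      positivity
  rw [← Ioc_union_Ioi_eq_Ioi (zero_le_one (α := ℝ)), integrableOn_union]
  constructor
  · have h1 : IntegrableOn (fun v : ℝ => v ^ (-(1 / 4) : ℝ)) (Ioc 0 1) := by
      have := intervalIntegral.intervalIntegrable_rpow' (a := 0) (b := 1) (r := -(1 / 4)) (by norm_num)
      rwa [intervalIntegrable_iff_integrableOn_Ioc_of_le zero_le_one] at this
    refine h1.mono' ((hc.mono Ioc_subset_Ioi_self).aestronglyMeasurable measurableSet_Ioc) ?_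
    rw [ae_restrict_iff' measurableSet_Ioc]
    refine Eventually.of_forall fun v hv => ?_
    have hv0 : 0 < v := hv.1
    rw [Real.norm_eq_abs, abs_of_nonneg (by positivity)]
    have h2 : v / (1 + v) ≤ v := div_le_self hv0.le (by linarith)
    calc v ^ (-(5 / 4) : ℝ) * (v / (1 + v)) ≤ v ^ (-(5 / 4) : ℝ) * v ^ (1 : ℝ) := by
          rw [Real.rpow_one]
          exact mul_le_mul_of_nonneg_left h2 (by positivity)
      _ = v ^ (-(1 / 4) : ℝ) := by
          rw [← Real.rpow_add hv0]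
          norm_num
  · have h1 : IntegrableOn (fun v : ℝ => v ^ (-(5 / 4) : ℝ)) (Ioi 1) :=
      integrableOn_Ioi_rpow_of_lt (by norm_num) one_pos
    refine h1.mono' ((hc.mono (Ioi_subset_Ioi zero_le_one)).aestronglyMeasurable measurableSet_Ioi) ?_
    rw [ae_restrict_iff' measurableSet_Ioi]
    refine Eventually.of_forall fun v hv => ?_
    have hv0 : 0 < v := lt_trans one_pos hv
    rw [Real.norm_eq_abs, abs_of_nonneg (by positivity)]
    have h2 : v / (1 + v) ≤ 1 := by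
      rw [div_le_one (by positivity)]
      linarith
    exact mul_le_of_le_one_right (by positivity) h2

theorem I0_nonneg : 0 ≤ I0 := by
  unfold I0
  refine setIntegral_nonneg measurableSet_Ioi fun v hv => ?_
  have : 0 < v := hv
  positivity

/-- scaling -/
theorem I0_scale {Y : ℝ} (hY : 0 < Y) :
    IntegrableOn (fun u : ℝ => u ^ (-(5 / 4) : ℝ) * (Y * u / (1 + Y * u))) (Ioi 0) ∧
    ∫ u in Ioi (0 : ℝ), u ^ (-(5 / 4) : ℝ) * (Y * u / (1 + Y * u)) = Y ^ (1 / 4 : ℝ) * I0 := by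
  have e : ∀ u ∈ Ioi (0 : ℝ), u ^ (-(5 / 4) : ℝ) * (Y * u / (1 + Y * u)) =
      Y ^ (5 / 4 : ℝ) * ((Y * u) ^ (-(5 / 4) : ℝ) * (Y * u / (1 + Y * u))) := by
    intro u hu
    have hu0 : 0 < u := hu
    rw [Real.mul_rpow hY.le hu0.le]
    have h1 : Y ^ (5 / 4 : ℝ) * Y ^ (-(5 / 4) : ℝ) = 1 := by
      rw [← Real.rpow_add hY]
      norm_num
    calc u ^ (-(5 / 4) : ℝ) * (Y * u / (1 + Y * u)) =
        1 * (u ^ (-(5 / 4) : ℝ) * (Y * u / (1 + Y * u))) := by ring
      _ = _ := by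
        rw [← h1]
        ring
  constructor
  · have h1 : IntegrableOn (fun u : ℝ => (Y * u) ^ (-(5 / 4) : ℝ) * (Y * u / (1 + Y * u))) (Ioi 0) := by
      have := (integrableOn_Ioi_comp_mul_left_iff (fun v : ℝ => v ^ (-(5 / 4) : ℝ) * (v / (1 + v))) 0 hY).2
        (by rw [mul_zero]; exact I0_int)
      exact this
    have h2 : IntegrableOn (fun u : ℝ => Y ^ (5 / 4 : ℝ) *
        ((Y * u) ^ (-(5 / 4) : ℝ) * (Y * u / (1 + Y * u)))) (Ioi 0) := h1.const_mul (Y ^ (5 / 4 : ℝ))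
    exact h2.congr_fun (fun u hu => (e u hu).symm) measurableSet_Ioi
  · rw [setIntegral_congr_fun measurableSet_Ioi e, integral_const_mul]
    have h2 := integral_comp_mul_left_Ioi (fun v : ℝ => v ^ (-(5 / 4) : ℝ) * (v / (1 + v))) 0 hY
    rw [h2, mul_zero, smul_eq_mul]
    show Y ^ (5 / 4 : ℝ) * (Y⁻¹ * I0) = Y ^ (1 / 4 : ℝ) * I0
    rw [← mul_assoc]
    congr 1
    rw [← Real.rpow_neg_one, ← Real.rpow_add hY]
    norm_num

/-- upper bound for the smoothed series -/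
theorem LL_le {X q R : ℝ} (hX : 0 < X) (hR : 1 ≤ R) (hq : 0 ≤ q) (hqX : q ≤ (R * X) ^ 2) {x : ℕ → ℝ}
    (hx : ∀ n, |x n| ≤ 1) : |LL X q x| ≤ 4 * I0 * (R * Real.sqrt X) := by
  set Y : ℝ := R ^ 4 * X ^ 2 with hY
  have hY0 : 0 < Y := by positivity
  obtain ⟨h1, h2⟩ := I0_scale hY0
  unfold LL
  have hb : ∀ u ∈ Ioi (0 : ℝ), ‖Th x u * u ^ (-(3 / 4) : ℝ) * Wf X q u‖ ≤
      4 * (u ^ (-(5 / 4) : ℝ) * (Y * u / (1 + Y * u))) := by
    intro u hu
    have hu0 : 0 < u := hu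
    rw [Real.norm_eq_abs, abs_mul, abs_mul, abs_of_nonneg (Wf_nonneg hX hu0),
      abs_of_nonneg (Real.rpow_nonneg hu0.le _)]
    have hW : Wf X q u ≤ 2 * (Y * u / (1 + Y * u)) := by
      unfold Wf
      have e1 : q ^ 2 * u / (X ^ 2 + q ^ 2 * u) = (q ^ 2 / X ^ 2 * u) / (1 + q ^ 2 / X ^ 2 * u) := by
        field_simp
      rw [e1]
      have k1 : X ^ 2 * u ≤ Y * u := by
        rw [hY]
        apply mul_le_mul_of_nonneg_right _ hu0.le
        have : 1 ≤ R ^ 4 := one_le_pow₀ hR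
        nlinarith [sq_nonneg X]
      have k2 : q ^ 2 / X ^ 2 * u ≤ Y * u := by
        apply mul_le_mul_of_nonneg_right _ hu0.le
        rw [div_le_iff₀ (by positivity), hY]
        calc q ^ 2 ≤ ((R * X) ^ 2) ^ 2 := pow_le_pow_left₀ hq hqX 2
          _ = R ^ 4 * X ^ 2 * X ^ 2 := by ring
      have := w_mono (by positivity : 0 ≤ X ^ 2 * u) k1
      have := w_mono (by positivity : 0 ≤ q ^ 2 / X ^ 2 * u) k2
      linarith
    have hT : |Th x u| ≤ 2 * u ^ (-(1 / 2) : ℝ) := by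
      refine (Th_le hx hu0).trans ?_
      have : Real.exp (-u) ≤ 1 := by
        rw [Real.exp_le_one_iff]
        linarith
      have h3 : 0 ≤ u ^ (-(1 / 2) : ℝ) := by positivity
      nlinarith [Real.exp_pos (-u), mul_le_mul_of_nonneg_right this h3]
    calc |Th x u| * u ^ (-(3 / 4) : ℝ) * Wf X q u ≤
        (2 * u ^ (-(1 / 2) : ℝ)) * u ^ (-(3 / 4) : ℝ) * (2 * (Y * u / (1 + Y * u))) := by
          apply mul_le_mul _ hW (Wf_nonneg hX hu0) (by positivity)
          exact mul_le_mul_of_nonneg_right hT (Real.rpow_nonneg hu0.le _)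
      _ = 4 * (u ^ (-(1 / 2) : ℝ) * u ^ (-(3 / 4) : ℝ) * (Y * u / (1 + Y * u))) := by ring
      _ = _ := by
          rw [← Real.rpow_add hu0]
          norm_num
  have h3 := norm_integral_le_of_norm_le (h1.const_mul 4)
    ((ae_restrict_iff' measurableSet_Ioi).2 (Eventually.of_forall hb))
  rw [Real.norm_eq_abs] at h3
  refine h3.trans (le_of_eq ?_)
  rw [integral_const_mul, h2]
  have e2 : Y ^ (1 / 4 : ℝ) = R * Real.sqrt X := by
    rw [hY, Real.mul_rpow (by positivity) (by positivity), ← Real.rpow_natCast R 4,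
      ← Real.rpow_natCast X 2, ← Real.rpow_mul (by linarith), ← Real.rpow_mul hX.le,
      Real.sqrt_eq_rpow]
    norm_num
  rw [e2]
  ring

/-- `∫ e^{-πv} v^{-3/4} v/(1+v)` -/
def J0 : ℝ := ∫ v in Ioi (0 : ℝ), Real.exp (-(Real.pi * v)) * v ^ (-(3 / 4) : ℝ) * (v / (1 + v))

theorem g_int (a : ℝ) (ha : 0 ≤ a) {m : ℝ} (hm : 1 ≤ m) : IntegrableOn (fun u : ℝ =>
    Real.exp (-(Real.pi * m ^ 2 * u)) * u ^ (-(3 / 4) : ℝ) * (a * u / (1 + a * u))) (Ioi 0) := by
  have hG := (Real.GammaIntegral_convergent (s := 1 / 4) (by norm_num))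
  refine hG.mono' ?_ ?_
  · refine ContinuousOn.aestronglyMeasurable ?_ measurableSet_Ioi
    refine ContinuousOn.mul (ContinuousOn.mul (by fun_prop) ?_) ?_
    · intro y hy
      exact (Real.continuousAt_rpow_const _ _ (Or.inl (ne_of_gt hy))).continuousWithinAt
    · refine ContinuousOn.div (by fun_prop) (by fun_prop) fun u hu => ?_
      have : 0 < u := hu
      positivity
  · rw [ae_restrict_iff' measurableSet_Ioi]
    refine Eventually.of_forall fun u hu => ?_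
    have hu0 : (0 : ℝ) < u := hu
    rw [Real.norm_eq_abs, abs_of_nonneg (by positivity)]
    have h1 : Real.exp (-(Real.pi * m ^ 2 * u)) ≤ Real.exp (-u) := by
      apply Real.exp_le_exp.2
      have h3 : 1 ≤ Real.pi * m ^ 2 := by
        have := Real.pi_gt_three
        nlinarith
      nlinarith
    have h2 : a * u / (1 + a * u) ≤ 1 := by
      rw [div_le_one (by positivity)]
      linarith
    have e : (1 / 4 - 1 : ℝ) = -(3 / 4) := by norm_num
    rw [e]
    calc _ ≤ Real.exp (-u) * u ^ (-(3 / 4) : ℝ) * 1 := by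
          apply mul_le_mul _ h2 (by positivity) (by positivity)
          exact mul_le_mul_of_nonneg_right h1 (by positivity)
      _ = _ := mul_one _

theorem J0_pos : 0 < J0 := by
  have h := g_int 1 zero_le_one (m := 1) le_rfl
  have e : (fun u : ℝ => Real.exp (-(Real.pi * 1 ^ 2 * u)) * u ^ (-(3 / 4) : ℝ) * (1 * u / (1 + 1 * u))) =
      fun v : ℝ => Real.exp (-(Real.pi * v)) * v ^ (-(3 / 4) : ℝ) * (v / (1 + v)) := by
    funext v
    simp only [one_pow, mul_one, one_mul]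
  rw [e] at h
  unfold J0
  rw [setIntegral_pos_iff_support_of_nonneg_ae]
  · have : Function.support (fun v : ℝ => Real.exp (-(Real.pi * v)) * v ^ (-(3 / 4) : ℝ) *
        (v / (1 + v))) ∩ Set.Ioi 0 = Set.Ioi 0 := by
      apply Set.inter_eq_right.2
      intro v hv
      have hv0 : 0 < v := hv
      rw [Function.mem_support]
      positivity
    rw [this]
    simp
  · rw [EventuallyLE, ae_restrict_iff' measurableSet_Ioi]
    refine Eventually.of_forall fun v hv => ?_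
    have hv0 : 0 < v := hv
    simp only [Pi.zero_apply]
    positivity
  · exact h

/-- the weight of the number `m` -/
def cm (X : ℝ) (m : ℕ) : ℝ := ∫ u in Ioi (0 : ℝ), Real.exp (-(Real.pi * (m : ℝ) ^ 2 * u)) *
  u ^ (-(3 / 4) : ℝ) * (X ^ 2 * u / (1 + X ^ 2 * u))

theorem cm_ge {X : ℝ} {m : ℕ} (hm : 1 ≤ m) (hmX : (m : ℝ) ≤ X) : J0 / Real.sqrt m ≤ cm X m := by
  have hm1 : (1 : ℝ) ≤ m := by exact_mod_cast hm
  have hm0 : (0 : ℝ) < m := by linarith
  have hm2 : (0 : ℝ) < (m : ℝ) ^ 2 := by positivity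
  have h1 : ∫ u in Ioi (0 : ℝ), Real.exp (-(Real.pi * (m : ℝ) ^ 2 * u)) * u ^ (-(3 / 4) : ℝ) *
      ((m : ℝ) ^ 2 * u / (1 + (m : ℝ) ^ 2 * u)) ≤ cm X m := by
    unfold cm
    refine setIntegral_mono_on (g_int _ (by positivity) hm1) (g_int _ (by positivity) hm1)
      measurableSet_Ioi fun u hu => ?_
    have hu0 : (0 : ℝ) < u := hu
    apply mul_le_mul_of_nonneg_left _ (by positivity)
    apply w_mono (by positivity)
    apply mul_le_mul_of_nonneg_right _ hu0.le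
    exact pow_le_pow_left₀ hm0.le hmX 2
  refine le_trans (le_of_eq ?_) h1
  have e : ∀ u ∈ Ioi (0 : ℝ), Real.exp (-(Real.pi * (m : ℝ) ^ 2 * u)) * u ^ (-(3 / 4) : ℝ) *
      ((m : ℝ) ^ 2 * u / (1 + (m : ℝ) ^ 2 * u)) = ((m : ℝ) ^ 2) ^ (3 / 4 : ℝ) *
      (Real.exp (-(Real.pi * ((m : ℝ) ^ 2 * u))) * ((m : ℝ) ^ 2 * u) ^ (-(3 / 4) : ℝ) *
        ((m : ℝ) ^ 2 * u / (1 + (m : ℝ) ^ 2 * u))) := by
    intro u hu
    have hu0 : (0 : ℝ) < u := hu
    rw [Real.mul_rpow hm2.le hu0.le]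
    have h2 : ((m : ℝ) ^ 2) ^ (3 / 4 : ℝ) * ((m : ℝ) ^ 2) ^ (-(3 / 4) : ℝ) = 1 := by
      rw [← Real.rpow_add hm2]
      norm_num
    have h3 : Real.pi * ((m : ℝ) ^ 2 * u) = Real.pi * (m : ℝ) ^ 2 * u := by ring
    rw [h3]
    calc _ = 1 * (Real.exp (-(Real.pi * (m : ℝ) ^ 2 * u)) * u ^ (-(3 / 4) : ℝ) *
      ((m : ℝ) ^ 2 * u / (1 + (m : ℝ) ^ 2 * u))) := by ring
      _ = _ := by
        rw [← h2]
        ring
  rw [setIntegral_congr_fun measurableSet_Ioi e, integral_const_mul]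
  have h4 := integral_comp_mul_left_Ioi (fun v : ℝ => Real.exp (-(Real.pi * v)) * v ^ (-(3 / 4) : ℝ) *
    (v / (1 + v))) 0 hm2
  rw [h4, mul_zero, smul_eq_mul]
  show J0 / Real.sqrt m = ((m : ℝ) ^ 2) ^ (3 / 4 : ℝ) * (((m : ℝ) ^ 2)⁻¹ * J0)
  have h5 : ((m : ℝ) ^ 2) ^ (3 / 4 : ℝ) * ((m : ℝ) ^ 2)⁻¹ = 1 / Real.sqrt m := by
    rw [← Real.rpow_neg_one, ← Real.rpow_add hm2, ← Real.rpow_natCast (m : ℝ) 2,
      ← Real.rpow_mul hm0.le, Real.sqrt_eq_rpow, one_div, ← Real.rpow_neg hm0.le]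
    norm_num
  rw [← mul_assoc, h5]
  ring

end

end Pool.Agent.H86.QC
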