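import Pool.Agent.H86.QC.P
import Pool.Agent.H86.QC.T

set_option autoImplicit false

/-!
# The basic inequality
-/

namespace Pool.Agent.H86.QC

open Finset MeasureTheory Set Filter Topology

noncomputable section

variable {ι : Type*}

/-- the form `∑ κ(a_i, a_j) x_i(n) x_j(n)` -/
def QQ (s : Finset ι) (a : ι → ℝ) (x : ι → ℕ → ℝ) (n : ℕ) : ℝ :=
  ∑ i ∈ s, ∑ j ∈ s, kap (a i) (a j) * (x i n * x j n)

theorem QQ_nonneg {s : Finset ι} {a : ι → ℝ} (ha : ∀ i ∈ s, 0 < a i) (x : ι → ℕ → ℝ) (n : ℕ) :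
    0 ≤ QQ s a x n := by
  refine (psd1 s (fun i => x i n) a ha).trans (le_of_eq ?_)
  unfold QQ
  refine Finset.sum_congr rfl fun i _ => Finset.sum_congr rfl fun j _ => ?_
  ring

/-- the sum over the terms of the theta series -/
theorem G_sum (s : Finset ι) (c : ι → ι → ℝ) {x : ι → ℕ → ℝ} (hx : ∀ i n, |x i n| ≤ 1) {u : ℝ}
    (hu : 0 < u) :
    HasSum (fun n : ℕ => eT n u * ∑ i ∈ s, ∑ j ∈ s, c i j * (x i (n + 1) * x j (n + 1)))
      (∑ i ∈ s, ∑ j ∈ s, c i j * Th (fun n => x i n * x j n) u) := by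
  have hxx : ∀ i j n, |x i n * x j n| ≤ 1 := by
    intro i j n
    rw [abs_mul]
    exact mul_le_one₀ (hx i n) (abs_nonneg _) (hx j n)
  have h : HasSum (fun n : ℕ => ∑ i ∈ s, ∑ j ∈ s, c i j * ((x i (n + 1) * x j (n + 1)) * eT n u))
      (∑ i ∈ s, ∑ j ∈ s, c i j * Th (fun n => x i n * x j n) u) :=
    hasSum_sum fun i _ => hasSum_sum fun j _ =>
      ((summ (x := fun n => x i n * x j n) (hxx i j) hu).hasSum).mul_left _
  refine h.congr_fun ?_ |> fun h => h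
  intro n
  rw [Finset.mul_sum]
  refine Finset.sum_congr rfl fun i _ => ?_
  rw [Finset.mul_sum]
  refine Finset.sum_congr rfl fun j _ => ?_
  ring

theorem sum_shift (g : ℕ → ℝ) (M : ℕ) :
    ∑ m ∈ Finset.Icc 1 M, g m = ∑ n ∈ Finset.range M, g (n + 1) := by
  induction M with
  | zero => simp
  | succ k ih => rw [Finset.sum_range_succ, ← ih, Finset.sum_Icc_succ_top (by omega)]

/-- the finite polynomial -/
def PP {τ : Type*} (Λ : Finset τ) (b : τ → ℝ) (N : τ → ℕ) (x : ι → ℕ → ℝ) (i j : ι) : ℝ :=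
  ∑ t ∈ Λ, b t * (x i (N t) * x j (N t))

/-- the terms -/
theorem term_ge {τ : Type*} (s : Finset ι) {a : ι → ℝ} (ha : ∀ i ∈ s, 0 < a i) {x : ι → ℕ → ℝ}
    (hmul : ∀ i m n, 1 ≤ m → 1 ≤ n → x i (m * n) = x i m * x i n) (Λ : Finset τ) (b : τ → ℝ) (N : τ → ℕ)
    (hb : ∀ t ∈ Λ, 0 ≤ b t) (hN : ∀ t ∈ Λ, 1 ≤ N t) {X u : ℝ} (hX : 0 < X) (hu : 0 < u) (n : ℕ) :
    X ^ 2 * u / (1 + X ^ 2 * u) * ∑ t ∈ Λ, b t * QQ s a x ((n + 1) * N t) ≤
      ∑ i ∈ s, ∑ j ∈ s, kap (a i) (a j) * PP Λ b N x i j * Wf X (a i * a j) u *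
        (x i (n + 1) * x j (n + 1)) := by
  have h1 : ∑ i ∈ s, ∑ j ∈ s, kap (a i) (a j) * PP Λ b N x i j * Wf X (a i * a j) u *
        (x i (n + 1) * x j (n + 1)) =
      ∑ t ∈ Λ, b t * (X ^ 2 * u / (1 + X ^ 2 * u) * QQ s a x ((n + 1) * N t) +
        ∑ i ∈ s, ∑ j ∈ s, x i ((n + 1) * N t) * x j ((n + 1) * N t) * kap (a i) (a j) *
          ((a i * a j) ^ 2 * u / (X ^ 2 + (a i * a j) ^ 2 * u))) := by
    have e1 : ∀ t ∈ Λ, b t * (X ^ 2 * u / (1 + X ^ 2 * u) * QQ s a x ((n + 1) * N t) +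
        ∑ i ∈ s, ∑ j ∈ s, x i ((n + 1) * N t) * x j ((n + 1) * N t) * kap (a i) (a j) *
          ((a i * a j) ^ 2 * u / (X ^ 2 + (a i * a j) ^ 2 * u))) =
        ∑ i ∈ s, ∑ j ∈ s, kap (a i) (a j) * (b t * (x i (N t) * x j (N t))) * Wf X (a i * a j) u *
          (x i (n + 1) * x j (n + 1)) := by
      intro t ht
      unfold QQ
      rw [Finset.mul_sum, ← Finset.sum_add_distrib, Finset.mul_sum]
      refine Finset.sum_congr rfl fun i _ => ?_
      rw [Finset.mul_sum, ← Finset.sum_add_distrib, Finset.mul_sum]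
      refine Finset.sum_congr rfl fun j _ => ?_
      rw [hmul i (n + 1) (N t) (by omega) (hN t ht), hmul j (n + 1) (N t) (by omega) (hN t ht)]
      unfold Wf
      ring
    have e2 : ∑ i ∈ s, ∑ j ∈ s, kap (a i) (a j) * PP Λ b N x i j * Wf X (a i * a j) u *
        (x i (n + 1) * x j (n + 1)) =
        ∑ i ∈ s, ∑ j ∈ s, ∑ t ∈ Λ, kap (a i) (a j) * (b t * (x i (N t) * x j (N t))) *
          Wf X (a i * a j) u * (x i (n + 1) * x j (n + 1)) := by
      refine Finset.sum_congr rfl fun i _ => Finset.sum_congr rfl fun j _ => ?_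
      unfold PP
      rw [Finset.mul_sum, Finset.sum_mul, Finset.sum_mul]
    rw [Finset.sum_congr rfl e1, e2]
    exact (Finset.sum_congr rfl fun i _ => Finset.sum_comm).trans Finset.sum_comm
  rw [h1, Finset.mul_sum]
  refine Finset.sum_le_sum fun t ht => ?_
  have h2 := psd2 s (fun i => x i ((n + 1) * N t)) a ha hX hu
  have h3 := mul_nonneg (hb t ht) h2
  calc X ^ 2 * u / (1 + X ^ 2 * u) * (b t * QQ s a x ((n + 1) * N t)) =
      b t * (X ^ 2 * u / (1 + X ^ 2 * u) * QQ s a x ((n + 1) * N t)) + 0 := by ring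
    _ ≤ _ := by
      rw [mul_add]
      exact add_le_add le_rfl h3

/-- **The basic inequality** -/
theorem basic {τ : Type*} (s : Finset ι) {a : ι → ℝ} (ha : ∀ i ∈ s, 0 < a i) {x : ι → ℕ → ℝ}
    (hx : ∀ i n, |x i n| ≤ 1)
    (hmul : ∀ i m n, 1 ≤ m → 1 ≤ n → x i (m * n) = x i m * x i n) (Λ : Finset τ) (b : τ → ℝ) (N : τ → ℕ)
    (hb : ∀ t ∈ Λ, 0 ≤ b t) (hN : ∀ t ∈ Λ, 1 ≤ N t) {X : ℝ} (hX : 0 < X) (M : ℕ) :
    ∑ m ∈ Finset.Icc 1 M, cm X m * ∑ t ∈ Λ, b t * QQ s a x (m * N t) ≤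
      ∑ i ∈ s, ∑ j ∈ s, kap (a i) (a j) * PP Λ b N x i j * LL X (a i * a j) (fun n => x i n * x j n) := by
  have hxx : ∀ i j n, |x i n * x j n| ≤ 1 := by
    intro i j n
    rw [abs_mul]
    exact mul_le_one₀ (hx i n) (abs_nonneg _) (hx j n)
  have hi1 : ∀ m ∈ Finset.Icc 1 M, IntegrableOn (fun u : ℝ => (Real.exp (-(Real.pi * (m : ℝ) ^ 2 * u)) *
      u ^ (-(3 / 4) : ℝ) * (X ^ 2 * u / (1 + X ^ 2 * u))) * ∑ t ∈ Λ, b t * QQ s a x (m * N t))
      (Set.Ioi 0) := by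
    intro m hm
    rw [Finset.mem_Icc] at hm
    exact (g_int _ (by positivity) (by exact_mod_cast hm.1)).mul_const _
  have hi2 : ∀ i ∈ s, ∀ j ∈ s, IntegrableOn (fun u : ℝ => kap (a i) (a j) * PP Λ b N x i j *
      (Th (fun n => x i n * x j n) u * u ^ (-(3 / 4) : ℝ) * Wf X (a i * a j) u)) (Set.Ioi 0) := by
    intro i _ j _
    exact (LL_int hX (hxx i j)).const_mul _
  have e1 : ∑ m ∈ Finset.Icc 1 M, cm X m * ∑ t ∈ Λ, b t * QQ s a x (m * N t) =
      ∫ u in Set.Ioi (0 : ℝ), ∑ m ∈ Finset.Icc 1 M, (Real.exp (-(Real.pi * (m : ℝ) ^ 2 * u)) *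
      u ^ (-(3 / 4) : ℝ) * (X ^ 2 * u / (1 + X ^ 2 * u))) * ∑ t ∈ Λ, b t * QQ s a x (m * N t) := by
    rw [integral_finsetSum _ hi1]
    refine Finset.sum_congr rfl fun m _ => ?_
    rw [integral_mul_const]
    rfl
  have e2 : ∑ i ∈ s, ∑ j ∈ s, kap (a i) (a j) * PP Λ b N x i j *
      LL X (a i * a j) (fun n => x i n * x j n) =
      ∫ u in Set.Ioi (0 : ℝ), ∑ i ∈ s, ∑ j ∈ s, kap (a i) (a j) * PP Λ b N x i j *
      (Th (fun n => x i n * x j n) u * u ^ (-(3 / 4) : ℝ) * Wf X (a i * a j) u) := by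
    rw [integral_finsetSum _ fun i hi => integrable_finsetSum _ fun j hj => hi2 i hi j hj]
    refine Finset.sum_congr rfl fun i hi => ?_
    rw [integral_finsetSum _ fun j hj => hi2 i hi j hj]
    refine Finset.sum_congr rfl fun j _ => ?_
    rw [integral_const_mul]
    rfl
  rw [e1, e2]
  refine setIntegral_mono_on (integrable_finsetSum _ hi1)
    (integrable_finsetSum _ fun i hi => integrable_finsetSum _ fun j hj => hi2 i hi j hj)
    measurableSet_Ioi fun u hu => ?_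
  have hu0 : (0 : ℝ) < u := hu
  have hup : (0 : ℝ) < u ^ (-(3 / 4) : ℝ) := Real.rpow_pos_of_pos hu0 _
  have hw : 0 ≤ X ^ 2 * u / (1 + X ^ 2 * u) := by positivity
  -- the right side as a series
  have hS := G_sum s (fun i j => kap (a i) (a j) * PP Λ b N x i j * Wf X (a i * a j) u) hx hu0
  have hnn : ∀ m : ℕ, 0 ≤ ∑ t ∈ Λ, b t * QQ s a x (m * N t) := fun m =>
    Finset.sum_nonneg fun t ht => mul_nonneg (hb t ht) (QQ_nonneg ha x _)
  have hpos : ∀ n : ℕ, 0 ≤ eT n u * ∑ i ∈ s, ∑ j ∈ s, kap (a i) (a j) * PP Λ b N x i j *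
      Wf X (a i * a j) u * (x i (n + 1) * x j (n + 1)) := by
    intro n
    refine mul_nonneg (eT_pos n u).le ?_
    refine le_trans ?_ (term_ge s ha hmul Λ b N hb hN hX hu0 n)
    exact mul_nonneg hw (hnn _)
  have h1 := sum_le_hasSum (Finset.range M) (fun n _ => hpos n) hS
  have h2 : ∑ m ∈ Finset.Icc 1 M, (Real.exp (-(Real.pi * (m : ℝ) ^ 2 * u)) *
      (X ^ 2 * u / (1 + X ^ 2 * u))) * ∑ t ∈ Λ, b t * QQ s a x (m * N t) ≤
      ∑ n ∈ Finset.range M, eT n u * ∑ i ∈ s, ∑ j ∈ s, kap (a i) (a j) * PP Λ b N x i j *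
      Wf X (a i * a j) u * (x i (n + 1) * x j (n + 1)) := by
    rw [sum_shift]
    refine Finset.sum_le_sum fun n _ => ?_
    have h3 := term_ge s ha hmul Λ b N hb hN hX hu0 n
    have h4 := mul_le_mul_of_nonneg_left h3 (eT_pos n u).le
    refine le_trans (le_of_eq ?_) h4
    unfold eT
    push_cast
    ring
  have h3 := mul_le_mul_of_nonneg_left (h2.trans h1) hup.le
  refine le_trans (le_of_eq ?_) (h3.trans (le_of_eq ?_))
  · rw [Finset.mul_sum]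
    refine Finset.sum_congr rfl fun m _ => ?_
    ring
  · rw [Finset.mul_sum]
    refine Finset.sum_congr rfl fun i _ => ?_
    rw [Finset.mul_sum]
    refine Finset.sum_congr rfl fun j _ => ?_
    ring

end

end Pool.Agent.H86.QC
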