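import Pool.Agent.H86.QC.H

set_option autoImplicit false

/-!
# The lower bound for the moments
-/

namespace Pool.Agent.H86.QC

open Finset Filter Topology
open Pool.Agent.Q122.FM (kron IsFund LHalf kr2)
open Pool.Agent.H306R2.RZ (gm)
open Pool.Agent.Q255.TQ (Tu)

noncomputable section

/-- the absolute value -/
def av (D : ℤ) : ℝ := |(D : ℝ)|

/-- the moments of the polynomial -/
def UU (S : Finset ℤ) (K j : ℕ) : ℝ := ∑ D ∈ S, ∑ E ∈ S, kap (av D) (av E) * BB K D E ^ j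

theorem swap3 {α : Type*} (S : Finset ℤ) (A : Finset α) (F : ℤ → ℤ → α → ℝ) :
    ∑ D ∈ S, ∑ E ∈ S, ∑ a ∈ A, F D E a = ∑ a ∈ A, ∑ D ∈ S, ∑ E ∈ S, F D E a :=
  (sum_congr rfl fun _ _ => sum_comm).trans sum_comm

theorem UU_eq (S : Finset ℤ) (K j : ℕ) :
    UU S K j = ∑ t ∈ Tu j K, bt t * QQ S av xk (∏ i, t i) := by
  unfold UU QQ
  have h1 : ∀ t ∈ Tu j K, bt t * ∑ D ∈ S, ∑ E ∈ S, kap (av D) (av E) *
      (xk D (∏ i, t i) * xk E (∏ i, t i)) =
      ∑ D ∈ S, ∑ E ∈ S, kap (av D) (av E) * (bt t * (xk D (∏ i, t i) * xk E (∏ i, t i))) := by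
    intro t _
    rw [mul_sum]
    refine sum_congr rfl fun D _ => ?_
    rw [mul_sum]
    refine sum_congr rfl fun E _ => ?_
    ring
  rw [sum_congr rfl h1, ← swap3]
  refine sum_congr rfl fun D _ => sum_congr rfl fun E _ => ?_
  rw [BB_pow, mul_sum]

/-- the product of the square and the other powers -/
theorem UU_split (S : Finset ℤ) (K j : ℕ) :
    ∑ a ∈ Icc 1 K, ∑ b ∈ Icc 1 K, bb a * bb b / Real.sqrt ((a * b : ℕ) : ℝ) *
      (∑ t ∈ Tu j K, bt t * QQ S av xk (a * b * ∏ i, t i)) = UU S K (j + 2) := by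
  have h1 : ∀ a ∈ Icc 1 K, ∀ b ∈ Icc 1 K, bb a * bb b / Real.sqrt ((a * b : ℕ) : ℝ) *
      (∑ t ∈ Tu j K, bt t * QQ S av xk (a * b * ∏ i, t i)) =
      ∑ D ∈ S, ∑ E ∈ S, kap (av D) (av E) * BB K D E ^ j *
        ((bb a / Real.sqrt a * (xk D a * xk E a)) * (bb b / Real.sqrt b * (xk D b * xk E b))) := by
    intro a ha b hb
    rw [mem_Icc] at ha hb
    have h2 : ∀ D ∈ S, ∀ E ∈ S, kap (av D) (av E) * BB K D E ^ j *
        ((bb a / Real.sqrt a * (xk D a * xk E a)) * (bb b / Real.sqrt b * (xk D b * xk E b))) =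
        ∑ t ∈ Tu j K, bb a * bb b / Real.sqrt ((a * b : ℕ) : ℝ) * (bt t * (kap (av D) (av E) *
          (xk D (a * b * ∏ i, t i) * xk E (a * b * ∏ i, t i)))) := by
      intro D _ E _
      rw [BB_pow, mul_sum, sum_mul]
      refine sum_congr rfl fun t ht => ?_
      have hp := Tu_prod_pos ht
      have hab : 1 ≤ a * b := Nat.mul_pos ha.1 hb.1
      rw [xk_mul D (a * b) _ hab hp, xk_mul E (a * b) _ hab hp, xk_mul D a b ha.1 hb.1,
        xk_mul E a b ha.1 hb.1]
      have hs : Real.sqrt ((a * b : ℕ) : ℝ) = Real.sqrt a * Real.sqrt b := by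
        push_cast
        exact Real.sqrt_mul (Nat.cast_nonneg a) _
      rw [hs]
      have ha0 : 0 < Real.sqrt a := Real.sqrt_pos.2 (by exact_mod_cast ha.1)
      have hb0 : 0 < Real.sqrt b := Real.sqrt_pos.2 (by exact_mod_cast hb.1)
      field_simp
    rw [sum_congr rfl fun D hD => sum_congr rfl fun E hE => h2 D hD E hE, swap3, mul_sum]
    refine sum_congr rfl fun t _ => ?_
    unfold QQ
    rw [mul_sum, mul_sum]
    refine sum_congr rfl fun D _ => ?_
    rw [mul_sum, mul_sum]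
  rw [sum_congr rfl fun a ha => sum_congr rfl fun b hb => h1 a ha b hb]
  rw [sum_congr rfl fun a _ => (swap3 S (Icc 1 K) _).symm, ← swap3]
  unfold UU
  refine sum_congr rfl fun D _ => sum_congr rfl fun E _ => ?_
  rw [pow_add, pow_two]
  unfold BB
  rw [sum_mul_sum, ← mul_assoc, mul_sum]
  refine sum_congr rfl fun a _ => ?_
  rw [mul_sum]

theorem av_pos {D : ℤ} (h : D ≠ 0) : 0 < av D := by
  unfold av
  exact abs_pos.2 (by exact_mod_cast h)

/-- **The first moment with a weight** -/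
theorem main1 (S : Finset ℤ) (hS : ∀ D ∈ S, D ≠ 0) {X : ℝ} (hX : 0 < X) {K j : ℕ}
    (hK : ((K * K : ℕ) : ℝ) ≤ X) :
    J0 * UU S K (j + 2) ≤ ∑ D ∈ S, ∑ E ∈ S, kap (av D) (av E) * BB K D E ^ j *
      LL X (av D * av E) (fun n => xk D n * xk E n) := by
  have hav : ∀ D ∈ S, 0 < av D := fun D hD => av_pos (hS D hD)
  have hN : ∀ t ∈ Tu j K, 1 ≤ ∏ i, t i := fun t ht => Tu_prod_pos ht
  have h := basic S hav xk_abs (fun D m n hm hn => xk_mul D m n hm hn) (Tu j K) bt
    (fun t => ∏ i, t i) (fun t _ => bt_nonneg t) hN hX (K * K)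
  have e1 : ∀ D E : ℤ, PP (Tu j K) bt (fun t => ∏ i, t i) xk D E = BB K D E ^ j := by
    intro D E
    rw [BB_pow]
    rfl
  simp only [e1] at h
  refine le_trans ?_ h
  have hT : ∀ m : ℕ, 0 ≤ ∑ t ∈ Tu j K, bt t * QQ S av xk (m * ∏ i, t i) := fun m =>
    sum_nonneg fun t _ => mul_nonneg (bt_nonneg t) (QQ_nonneg hav xk _)
  have h2 : ∑ m ∈ Icc 1 (K * K), J0 / Real.sqrt m * ∑ t ∈ Tu j K, bt t * QQ S av xk (m * ∏ i, t i) ≤
      ∑ m ∈ Icc 1 (K * K), cm X m * ∑ t ∈ Tu j K, bt t * QQ S av xk (m * ∏ i, t i) := by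
    refine sum_le_sum fun m hm => ?_
    rw [mem_Icc] at hm
    refine mul_le_mul_of_nonneg_right (cm_ge hm.1 ?_) (hT m)
    refine le_trans ?_ hK
    exact_mod_cast hm.2
  refine le_trans ?_ h2
  have h3 := dom_sq K (fun m => ∑ t ∈ Tu j K, bt t * QQ S av xk (m * ∏ i, t i)) hT
  rw [UU_split] at h3
  have h4 := mul_le_mul_of_nonneg_left h3 J0_pos.le
  refine h4.trans (le_of_eq ?_)
  rw [mul_sum]
  refine sum_congr rfl fun m _ => ?_
  ring

/-- the sum off the diagonal -/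
def Off (S : Finset ℤ) (F : ℤ → ℤ → ℝ) : ℝ := ∑ D ∈ S, ∑ E ∈ S.erase D, F D E

theorem off_add (S : Finset ℤ) (F : ℤ → ℤ → ℝ) :
    ∑ D ∈ S, ∑ E ∈ S, F D E = Off S F + ∑ D ∈ S, F D D := by
  unfold Off
  rw [← sum_add_distrib]
  refine sum_congr rfl fun D hD => ?_
  rw [add_comm]
  exact (add_sum_erase S (fun E => F D E) hD).symm

theorem adm_ne {S : Finset ℤ} {X R : ℝ} (hA : Adm S X R) : ∀ D ∈ S, D ≠ 0 := by
  intro D hD h
  have := hA.mod D hD
  rw [h] at this
  norm_num at this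

theorem adm_sgn {S : Finset ℤ} {X R : ℝ} (hA : Adm S X R) {D E : ℤ} (hD : D ∈ S) (hE : E ∈ S) :
    0 < D * E := by
  rcases hA.sgn with h | h
  · exact mul_pos (h D hD) (h E hE)
  · exact mul_pos_of_neg_of_neg (h D hD) (h E hE)

theorem gm_pos : 0 < gm (1 / 2) := by
  unfold gm
  have h1 : 0 < Real.Gamma (1 / 2 / 2) := Real.Gamma_pos_of_pos (by norm_num)
  have h2 : 0 < Real.pi ^ (-((1 : ℝ) / 2 / 2)) := Real.rpow_pos_of_pos Real.pi_pos _
  positivity

theorem kap_self {a : ℝ} (ha : 0 < a) : kap a a = 1 := by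
  unfold kap
  field_simp
  ring

/-- **The first moment with a weight, off the diagonal** -/
theorem main2 {S : Finset ℤ} {X R : ℝ} (hX : 0 < X) (hR : 1 ≤ R) (hA : Adm S X R) {K i : ℕ}
    (hK : ((K * K : ℕ) : ℝ) ≤ X) :
    J0 * UU S K (2 * (i + 1)) ≤ gm (1 / 2) * Off S (fun D E => kap (av D) (av E) *
      BB K D E ^ (2 * i) * LHalf (D * E)) + S.card * ((4 * K) ^ i * (4 * I0 * (R * Real.sqrt X))) := by
  have h := main1 S (adm_ne hA) hX (K := K) (j := 2 * i) hK
  have e1 : 2 * i + 2 = 2 * (i + 1) := by ring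
  rw [e1, off_add] at h
  refine h.trans (add_le_add (le_of_eq ?_) ?_)
  · unfold Off
    rw [mul_sum]
    refine sum_congr rfl fun D hD => ?_
    rw [mul_sum]
    refine sum_congr rfl fun E hE => ?_
    obtain ⟨hED, hE⟩ := mem_erase.1 hE
    have h2 := LL_eq (hA.mod D hD) (hA.mod E hE) (hA.sqf D hD) (hA.sqf E hE) (adm_sgn hA hD hE)
      (Ne.symm hED) (hA.cop D hD E hE (Ne.symm hED)) hX
    unfold av
    beta_reduce
    rw [h2]
    ring
  · have h3 : ∀ D ∈ S, kap (av D) (av D) * BB K D D ^ (2 * i) *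
        LL X (av D * av D) (fun n => xk D n * xk D n) ≤ (4 * K) ^ i * (4 * I0 * (R * Real.sqrt X)) := by
      intro D hD
      have ha := av_pos (adm_ne hA D hD)
      rw [kap_self ha, one_mul]
      have h4 : BB K D D ^ (2 * i) ≤ (4 * K) ^ i := by
        rw [pow_mul]
        refine pow_le_pow_left₀ (sq_nonneg _) ?_ i
        have h5 := BB_abs K D D
        have h6 : |BB K D D| ^ 2 ≤ (2 * Real.sqrt K) ^ 2 := pow_le_pow_left₀ (abs_nonneg _) h5 2
        rw [sq_abs] at h6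
        refine h6.trans (le_of_eq ?_)
        rw [mul_pow, Real.sq_sqrt (Nat.cast_nonneg K)]
        ring
      have h7 : av D * av D ≤ (R * X) ^ 2 := by
        have := hA.hi D hD
        rw [sq]
        exact mul_le_mul this this ha.le (by positivity)
      have h8 := LL_le (q := av D * av D) hX hR (by positivity) h7
        (x := fun n => xk D n * xk D n) (fun n => by
          rw [abs_mul]
          exact mul_le_one₀ (xk_abs D n) (abs_nonneg _) (xk_abs D n))
      have h9 : 0 ≤ BB K D D ^ (2 * i) := (even_two_mul i).pow_nonneg _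
      calc BB K D D ^ (2 * i) * LL X (av D * av D) (fun n => xk D n * xk D n) ≤
          BB K D D ^ (2 * i) * (4 * I0 * (R * Real.sqrt X)) :=
            mul_le_mul_of_nonneg_left ((le_abs_self _).trans h8) h9
        _ ≤ _ := mul_le_mul_of_nonneg_right h4 ((abs_nonneg _).trans h8)
    refine (sum_le_sum h3).trans ?_
    rw [sum_const, nsmul_eq_mul]

/-- upper bound for the central values -/
theorem LHalf_le {S : Finset ℤ} {X R : ℝ} (hX : 0 < X) (hR : 1 ≤ R) (hA : Adm S X R) {D E : ℤ}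
    (hD : D ∈ S) (hE : E ∈ S) (hDE : D ≠ E) :
    |LHalf (D * E)| * gm (1 / 2) ≤ 4 * I0 * (R * Real.sqrt X) := by
  have h2 := LL_eq (hA.mod D hD) (hA.mod E hE) (hA.sqf D hD) (hA.sqf E hE) (adm_sgn hA hD hE)
      hDE (hA.cop D hD E hE hDE) hX
  have ha := av_pos (adm_ne hA D hD)
  have hb := av_pos (adm_ne hA E hE)
  have h7 : av D * av E ≤ (R * X) ^ 2 := by
    rw [sq]
    exact mul_le_mul (hA.hi D hD) (hA.hi E hE) hb.le (by positivity)
  have h8 := LL_le (q := av D * av E) hX hR (by positivity) h7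
    (x := fun n => xk D n * xk E n) (fun n => by
      rw [abs_mul]
      exact mul_le_one₀ (xk_abs D n) (abs_nonneg _) (xk_abs E n))
  unfold av at h8
  rw [h2, abs_mul, abs_of_pos gm_pos] at h8
  exact h8

/-! ### the diagonal -/

open Classical in
/-- few elements have a common factor with a given number -/
theorem few {S : Finset ℤ} {X R : ℝ} (hA : Adm S X R) {r : ℕ} (hr : 1 ≤ r) :
    (S.filter fun D : ℤ => ¬ D.natAbs.Coprime r).card ≤ r := by
  have h1 : (S.filter fun D : ℤ => ¬ D.natAbs.Coprime r).card ≤ (Icc 1 r).card := by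
    refine card_le_card_of_injOn (fun D : ℤ => (Nat.gcd D.natAbs r).minFac) ?_ ?_
    · intro D hD
      simp only [coe_filter, Set.mem_ofPred_eq] at hD
      have hp : (Nat.gcd D.natAbs r).minFac.Prime := Nat.minFac_prime hD.2
      have hd : (Nat.gcd D.natAbs r).minFac ∣ r := (Nat.minFac_dvd _).trans (Nat.gcd_dvd_right _ _)
      rw [mem_coe, mem_Icc]
      exact ⟨hp.one_le, Nat.le_of_dvd (by omega) hd⟩
    · intro D hD E hE h
      simp only [coe_filter, Set.mem_ofPred_eq] at hD hE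
      by_contra hne
      simp only at h
      have hp : (Nat.gcd D.natAbs r).minFac.Prime := Nat.minFac_prime hD.2
      have d1 : (Nat.gcd D.natAbs r).minFac ∣ D.natAbs := (Nat.minFac_dvd _).trans (Nat.gcd_dvd_left _ _)
      have d2 : (Nat.gcd D.natAbs r).minFac ∣ E.natAbs := by
        rw [h]
        exact (Nat.minFac_dvd _).trans (Nat.gcd_dvd_left _ _)
      have hc := hA.cop D hD.1 E hE.1 hne
      rw [Int.isCoprime_iff_gcd_eq_one, Int.gcd] at hc
      have := Nat.dvd_gcd d1 d2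
      rw [hc] at this
      exact hp.one_lt.ne' (Nat.dvd_one.1 this)
  rwa [Nat.card_Icc, Nat.add_sub_cancel] at h1

/-- lower bound for the form at the squares -/
theorem QQ_sq {S : Finset ℤ} {X R : ℝ} (hX : 0 < X) (hR : 1 ≤ R) (hA : Adm S X R) {r : ℕ} (hr : 1 ≤ r)
    (hrS : 2 * r ≤ S.card) : (S.card : ℝ) ^ 2 / (4 * R ^ 2) ≤ QQ S av xk (r ^ 2) := by
  classical
  set T := S.filter fun D : ℤ => D.natAbs.Coprime r with hT
  have h1 : S.card ≤ 2 * T.card := by
    have h2 := few hA hr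
    have h3 : T.card + (S.filter fun D : ℤ => ¬ D.natAbs.Coprime r).card = S.card :=
      card_filter_add_card_filter_not _
    omega
  have hfund : ∀ D ∈ S, IsFund D := fun D hD => Or.inl ⟨hA.mod D hD, hA.sqf D hD⟩
  have h4 : ∑ D ∈ T, ∑ E ∈ T, kap (av D) (av E) ≤ QQ S av xk (r ^ 2) := by
    unfold QQ
    have e : ∀ D ∈ S, ∀ E ∈ S, kap (av D) (av E) * (xk D (r ^ 2) * xk E (r ^ 2)) =
        if D.natAbs.Coprime r then (if E.natAbs.Coprime r then kap (av D) (av E) else 0) else 0 := by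
      intro D hD E hE
      rw [xk_sq D (hfund D hD) r hr, xk_sq E (hfund E hE) r hr]
      split_ifs <;> simp
    rw [sum_congr rfl fun D hD => sum_congr rfl fun E hE => e D hD E hE]
    rw [hT, sum_filter]
    refine le_of_eq (sum_congr rfl fun D _ => ?_)
    by_cases h : D.natAbs.Coprime r
    · rw [if_pos h]
      simp only [if_pos h]
      rw [sum_filter]
    · rw [if_neg h]
      simp only [if_neg h]
      rw [sum_const_zero]
  refine le_trans ?_ h4
  have h5 : ∀ D ∈ T, ∀ E ∈ T, 1 / R ^ 2 ≤ kap (av D) (av E) := by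
    intro D hD E hE
    have hD' := (mem_filter.1 hD).1
    have hE' := (mem_filter.1 hE).1
    exact kap_ge hX hR (hA.lo D hD') (hA.hi D hD') (hA.lo E hE') (hA.hi E hE')
  have h6 : ∑ D ∈ T, ∑ E ∈ T, (1 / R ^ 2 : ℝ) ≤ ∑ D ∈ T, ∑ E ∈ T, kap (av D) (av E) :=
    sum_le_sum fun D hD => sum_le_sum fun E hE => h5 D hD E hE
  refine le_trans ?_ h6
  rw [sum_const, sum_const, nsmul_eq_mul, nsmul_eq_mul]
  have h7 : (S.card : ℝ) ≤ 2 * T.card := by exact_mod_cast h1
  have h8 : (S.card : ℝ) ^ 2 ≤ (2 * T.card) ^ 2 := pow_le_pow_left₀ (Nat.cast_nonneg _) h7 2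
  have hR2 : 0 < R ^ 2 := by positivity
  rw [div_le_iff₀ (by positivity)]
  calc (S.card : ℝ) ^ 2 ≤ (2 * T.card) ^ 2 := h8
    _ = (T.card : ℝ) * (T.card * (1 / R ^ 2)) * (4 * R ^ 2) := by
      field_simp
      ring

/-- **The moments of the polynomial** -/
theorem UU_ge {S : Finset ℤ} {X R : ℝ} (hX : 0 < X) (hR : 1 ≤ R) (hA : Adm S X R) {K k : ℕ}
    (hKS : 2 * K ^ k ≤ S.card) :
    (S.card : ℝ) ^ 2 / (4 * R ^ 2) * DD k K ≤ UU S K (2 * k) := by
  classical
  have hav : ∀ D ∈ S, 0 < av D := fun D hD => av_pos (adm_ne hA D hD)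
  rw [UU_eq]
  have h1 : ∑ t ∈ (Tu (2 * k) K).filter (fun t => IsSquare (∏ i, t i)), bt t * QQ S av xk (∏ i, t i) ≤
      ∑ t ∈ Tu (2 * k) K, bt t * QQ S av xk (∏ i, t i) :=
    sum_le_sum_of_subset_of_nonneg (filter_subset _ _) fun t _ _ =>
      mul_nonneg (bt_nonneg t) (QQ_nonneg hav xk _)
  refine le_trans ?_ h1
  unfold DD
  rw [mul_sum]
  refine sum_le_sum fun t ht => ?_
  obtain ⟨ht, r, hr⟩ := mem_filter.1 ht
  have hp := Tu_prod_pos ht
  have hr1 : 1 ≤ r := by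
    rcases Nat.eq_zero_or_pos r with h | h
    · rw [h] at hr
      omega
    · exact h
  have hle : ∏ i, t i ≤ K ^ (2 * k) := by
    calc ∏ i, t i ≤ ∏ _i : Fin (2 * k), K := prod_le_prod' fun i _ => Tu_le ht i
      _ = K ^ (2 * k) := by rw [prod_const, card_univ, Fintype.card_fin]
  have hrK : r ≤ K ^ k := by
    have h2 : r ^ 2 ≤ (K ^ k) ^ 2 := by
      rw [← pow_mul, mul_comm k 2, sq, ← hr]
      exact hle
    exact (Nat.pow_le_pow_iff_left (by norm_num)).1 h2
  have h3 := QQ_sq hX hR hA hr1 (by omega : 2 * r ≤ S.card)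
  have e1 : ∏ i, t i = r ^ 2 := by rw [hr, sq]
  have e2 : bt t = (∏ i, bb (t i)) / Real.sqrt ((∏ i, t i : ℕ) : ℝ) := by
    unfold bt
    rw [prod_div_distrib]
    congr 1
    push_cast
    rw [Real.sqrt_prod _ fun i _ => Nat.cast_nonneg _]
  rw [← e2, e1, mul_comm]
  exact mul_le_mul_of_nonneg_left h3 (bt_nonneg t)

end

end Pool.Agent.H86.QC
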