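import Mathlib

set_option autoImplicit false

/-!
# Positivity of the Cauchy kernel and of the kernels of the approximate functional equation
-/

namespace Pool.Agent.H86.QC

open Finset MeasureTheory Set

/-- the integral of the Cauchy kernel -/
theorem cauchy_int {z : ℝ} (hz : 0 < z) : ∫ t in Ioi (0 : ℝ), Real.exp (-z * t) = 1 / z := by
  rw [integral_exp_mul_Ioi (by linarith : -z < 0) 0]
  rw [mul_zero, Real.exp_zero]
  field_simp

/-- the Cauchy kernel is positive semidefinite -/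
theorem cauchy_psd {ι : Type*} (s : Finset ι) (c ξ : ι → ℝ) (hξ : ∀ i ∈ s, 0 < ξ i) :
    0 ≤ ∑ i ∈ s, ∑ j ∈ s, c i * c j / (ξ i + ξ j) := by
  have h1 : ∀ i ∈ s, ∀ j ∈ s, c i * c j / (ξ i + ξ j) =
      ∫ t in Ioi (0 : ℝ), c i * c j * Real.exp (-(ξ i + ξ j) * t) := by
    intro i hi j hj
    have hp : 0 < ξ i + ξ j := add_pos (hξ i hi) (hξ j hj)
    rw [integral_const_mul, cauchy_int hp, mul_one_div]
  have hint : ∀ i ∈ s, ∀ j ∈ s, IntegrableOn
      (fun t : ℝ => c i * c j * Real.exp (-(ξ i + ξ j) * t)) (Ioi 0) := by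
    intro i hi j hj
    have hp : -(ξ i + ξ j) < 0 := by linarith [add_pos (hξ i hi) (hξ j hj)]
    exact (integrableOn_exp_mul_Ioi hp 0).const_mul _
  have h2 : ∑ i ∈ s, ∑ j ∈ s, c i * c j / (ξ i + ξ j) =
      ∫ t in Ioi (0 : ℝ), (∑ i ∈ s, c i * Real.exp (-(ξ i) * t)) ^ 2 := by
    rw [Finset.sum_congr rfl fun i hi => Finset.sum_congr rfl fun j hj => h1 i hi j hj]
    rw [Finset.sum_congr rfl fun i hi => (integral_finsetSum s fun j hj => hint i hi j hj).symm]
    rw [← integral_finsetSum s (fun i hi => integrable_finsetSum s fun j hj => hint i hi j hj)]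
    refine setIntegral_congr_fun measurableSet_Ioi fun t _ => ?_
    rw [sq, Finset.sum_mul_sum]
    refine Finset.sum_congr rfl fun i _ => Finset.sum_congr rfl fun j _ => ?_
    have : Real.exp (-(ξ i + ξ j) * t) = Real.exp (-(ξ i) * t) * Real.exp (-(ξ j) * t) := by
      rw [← Real.exp_add]
      congr 1
      ring
    rw [this]
    ring
  rw [h2]
  exact integral_nonneg fun t => sq_nonneg _

/-- the weight of a pair -/
noncomputable def kap (a b : ℝ) : ℝ := 2 * a * b / (a ^ 2 + b ^ 2)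

theorem kap_pos {a b : ℝ} (ha : 0 < a) (hb : 0 < b) : 0 < kap a b := by
  unfold kap
  positivity

theorem kap_le {a b : ℝ} (ha : 0 < a) (hb : 0 < b) : kap a b ≤ 1 := by
  unfold kap
  rw [div_le_one (by positivity)]
  nlinarith [sq_nonneg (a - b)]

/-- lower bound for the weight -/
theorem kap_ge {a b X R : ℝ} (hX : 0 < X) (hR : 1 ≤ R) (ha : X ≤ a) (ha' : a ≤ R * X) (hb : X ≤ b)
    (hb' : b ≤ R * X) : 1 / R ^ 2 ≤ kap a b := by
  unfold kap
  have ha0 : 0 < a := hX.trans_le ha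
  have hb0 : 0 < b := hX.trans_le hb
  rw [div_le_div_iff₀ (by positivity) (by positivity)]
  have h1 : a ^ 2 ≤ (R * X) ^ 2 := pow_le_pow_left₀ ha0.le ha' 2
  have h2 : b ^ 2 ≤ (R * X) ^ 2 := pow_le_pow_left₀ hb0.le hb' 2
  have h3 : X * X ≤ a * b := mul_le_mul ha hb hX.le ha0.le
  have h4 : R ^ 2 * (X * X) ≤ R ^ 2 * (a * b) := mul_le_mul_of_nonneg_left h3 (by positivity)
  nlinarith

/-- the weights of the pairs are positive semidefinite -/
theorem psd1 {ι : Type*} (s : Finset ι) (c a : ι → ℝ) (ha : ∀ i ∈ s, 0 < a i) :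
    0 ≤ ∑ i ∈ s, ∑ j ∈ s, c i * c j * kap (a i) (a j) := by
  have h := cauchy_psd s (fun i => Real.sqrt 2 * c i * a i) (fun i => a i ^ 2)
    (fun i hi => pow_pos (ha i hi) 2)
  refine h.trans (le_of_eq ?_)
  refine Finset.sum_congr rfl fun i _ => Finset.sum_congr rfl fun j _ => ?_
  unfold kap
  have h2 : Real.sqrt 2 * Real.sqrt 2 = 2 := Real.mul_self_sqrt (by norm_num)
  have : Real.sqrt 2 * c i * a i * (Real.sqrt 2 * c j * a j) =
      (Real.sqrt 2 * Real.sqrt 2) * (c i * c j * (a i * a j)) := by ring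
  rw [this, h2]
  ring

/-- the kernel with the conductor is positive semidefinite -/
theorem psd2 {ι : Type*} (s : Finset ι) (c a : ι → ℝ) (ha : ∀ i ∈ s, 0 < a i) {X u : ℝ} (hX : 0 < X)
    (hu : 0 < u) :
    0 ≤ ∑ i ∈ s, ∑ j ∈ s, c i * c j * kap (a i) (a j) *
      ((a i * a j) ^ 2 * u / (X ^ 2 + (a i * a j) ^ 2 * u)) := by
  set v : ℝ := u / X ^ 2 with hv
  have hv0 : 0 < v := by positivity
  have h := cauchy_psd s (fun i => Real.sqrt (2 * v) * c i * a i ^ 3 / (1 + v * a i ^ 4))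
    (fun i => a i ^ 2 / (1 + v * a i ^ 4))
    (fun i hi => by have := ha i hi; positivity)
  refine h.trans (le_of_eq ?_)
  refine Finset.sum_congr rfl fun i hi => Finset.sum_congr rfl fun j hj => ?_
  have hi0 := ha i hi
  have hj0 := ha j hj
  unfold kap
  have h2 : Real.sqrt (2 * v) * Real.sqrt (2 * v) = 2 * v := Real.mul_self_sqrt (by positivity)
  have e1 : Real.sqrt (2 * v) * c i * a i ^ 3 / (1 + v * a i ^ 4) *
      (Real.sqrt (2 * v) * c j * a j ^ 3 / (1 + v * a j ^ 4)) =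
      (Real.sqrt (2 * v) * Real.sqrt (2 * v)) * (c i * c j * (a i ^ 3 * a j ^ 3)) /
        ((1 + v * a i ^ 4) * (1 + v * a j ^ 4)) := by
    field_simp
  have e2 : a i ^ 2 / (1 + v * a i ^ 4) + a j ^ 2 / (1 + v * a j ^ 4) =
      (a i ^ 2 + a j ^ 2) * (1 + v * (a i * a j) ^ 2) / ((1 + v * a i ^ 4) * (1 + v * a j ^ 4)) := by
    field_simp
    ring
  have e3 : (a i * a j) ^ 2 * u / (X ^ 2 + (a i * a j) ^ 2 * u) =
      v * (a i * a j) ^ 2 / (1 + v * (a i * a j) ^ 2) := by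
    rw [hv]
    field_simp
  rw [e1, e2, e3, h2]
  have p1 : 0 < 1 + v * a i ^ 4 := by positivity
  have p2 : 0 < 1 + v * a j ^ 4 := by positivity
  have p3 : 0 < a i ^ 2 + a j ^ 2 := by positivity
  have p4 : 0 < 1 + v * (a i * a j) ^ 2 := by positivity
  field_simp

end Pool.Agent.H86.QC
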